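import Mathlib

/-!
# Project GW: the gap theorem with periodic weights in the ring of integers of a number field

`q` is the period, `W : ℕ → 𝓞 k` the weights (only `W h`, `0 < h < q`, are used).  Mod `p`:
`λ = Lam / (z^(p-1) - 1)` with `λ(z+1) - λ(z) = ∑_{0<h<q} W_h / (q z + h)`.
`Mat F q W w x`: the matrix of the conditions `∑_e C_e(a+y) y^e + ∑_c B_c(a+y) R_{ca}(cy) = O(y^(w^3))`,
`R_b(z) = ∑_{0<h<qb, q ∤ h} W_(h mod q) / (q z + h)`, `a < w x`.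
-/

namespace H22GW

open Polynomial Finset NumberField

section
variable (F : Type*) [Field F]

/-- `binom(X, N)` -/
noncomputable def bn (N : ℕ) : F[X] :=
  C ((N.factorial : F)⁻¹) * ∏ i ∈ range N, (X - C (i : F))

/-- the basis of polynomials: `binom(X,x)^(i / x) binom(X, i % x)`, of degree `i` -/
noncomputable def PB (x i : ℕ) : F[X] := bn F x ^ (i / x) * bn F (i % x)

variable {F}

/-- the weight at `h`: `W (h mod q)`, `0` if `q ∣ h` -/
def wg (q : ℕ) (W : ℕ → F) (h : ℕ) : F := if h % q = 0 then 0 else W (h % q)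

/-- `Pi_c(a+y) R_{ca}(cy)`, `Pi_c = binom(q c X, q c m)` -/
noncomputable def RR (q : ℕ) (W : ℕ → F) (m c a : ℕ) : F[X] :=
  C (((q * c * m).factorial : F)⁻¹) * ∑ h ∈ Ioo 0 (q * c * a),
    C (wg q W h) * ∏ k ∈ (range (q * c * m)).erase (q * c * a - h),
      (C ((q * c : ℕ) : F) * (X + C (a : F)) - C (k : F))

/-- columns -/
abbrev Col (q w x : ℕ) : Type :=
  (Fin w × Fin (w ^ 3 / 4 * x)) ⊕ (Σ c : Fin w, Fin (w ^ 3 / 4 * x - q * (c.val + 1) * (w * x)))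

/-- rows: nodes `a < w x`, coefficients of `y^i`, `i < w^3` -/
abbrev Row (w x : ℕ) : Type := Fin (w * x) × Fin (w ^ 3)

/-- the matrix -/
noncomputable def Mat (q : ℕ) (W : ℕ → F) (w x : ℕ) : Matrix (Row w x) (Col q w x) F := fun r c =>
  match c with
  | Sum.inl (e, i) => (((PB F x i).comp (X + C ((r.1.val : ℕ) : F))) * X ^ e.val).coeff r.2.val
  | Sum.inr ⟨c, i⟩ =>
    (((PB F x i).comp (X + C ((r.1.val : ℕ) : F))) * RR q W (w * x) (c.val + 1) r.1.val).coeff r.2.val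

/-- the product of the `q z + h`, `0 < h < q` -/
noncomputable def dq (F : Type*) [Field F] (q : ℕ) : F[X] :=
  ∏ h ∈ Ioo 0 q, (C (q : F) * X + C (h : F))

/-- `dq * ∑_{0<h<q} W_h / (q z + h)` -/
noncomputable def nq (q : ℕ) (W : ℕ → F) : F[X] :=
  ∑ h ∈ Ioo 0 q, C (W h) * ∏ k ∈ (Ioo 0 q).erase h, (C (q : F) * X + C (k : F))

/-- `λ = Lam / (z^(p-1) - 1)` satisfies `λ(z+1) - λ(z) = ∑_{0<h<q} W_h / (q z + h)` -/
def LamOK (p q : ℕ) (W : ℕ → F) (Lam : F[X]) : Prop :=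
  Lam.natDegree < p - 1 ∧
  dq F q * (Lam.comp (X + 1) * (X ^ (p - 1) - 1) - Lam * ((X + 1) ^ (p - 1) - 1))
    = (X ^ (p - 1) - 1) * ((X + 1) ^ (p - 1) - 1) * nq q W

end

/-- the common denominator of the entries -/
def Dn (q w x : ℕ) : ℕ :=
  Nat.lcmUpto x ^ (w ^ 3) * ∏ k ∈ range (w ^ 3), Nat.lcmUpto (q * w * (w * x) / (k + 1))

/-- `q : k` reduces to `z` under `φ : 𝓞 k → Ω` -/
def RedK {k Ω : Type*} [Field k] [NumberField k] [Field Ω] (φ : 𝓞 k →+* Ω) (y : k) (z : Ω) : Prop :=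
  ∃ (n : ℕ) (a : 𝓞 k), (n : Ω) ≠ 0 ∧ (n : k) * y = (a : k) ∧ φ a = (n : Ω) * z

/-- the prime `p` is bad for the window `[w, V)` -/
def BadW (k : Type*) [Field k] [NumberField k] (q : ℕ) (W : ℕ → 𝓞 k) (w V p : ℕ) : Prop :=
  ∃ (Ω : Type) (_ : Field Ω) (_ : CharP Ω p) (φ : 𝓞 k →+* Ω) (Lam : Polynomial Ω),
    LamOK p q (fun h => φ (W h)) Lam ∧ ∀ j : ℕ, w ≤ j → j < V → Lam.coeff j = 0

end H22GW
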