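import Pool.Agent.H22.GW.Defs
import Pool.Agent.H22.OD.LemG

/-!
# GW Integr (port of OD Integr; `lemG`).  Weights: `W h` integral, all other numbers rational.
-/

namespace H22GW

open Finset Polynomial NumberField

section
variable {F : Type*} [Field F]

/-- `N ^ i * coeff i` is integral for all `i` -/
private def CI (N : ℕ) (f : F[X]) : Prop := ∀ i : ℕ, IsIntegral ℤ ((N : F) ^ i * f.coeff i)

private theorem int_nat (n : ℕ) : IsIntegral ℤ (n : F) := by
  have := isIntegral_algebraMap (R := ℤ) (A := F) (x := (n : ℤ))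
  simpa using this

private theorem int_int (n : ℤ) : IsIntegral ℤ (n : F) := by
  have := isIntegral_algebraMap (R := ℤ) (A := F) (x := n)
  simpa using this

private theorem CI.mul {N : ℕ} {f g : F[X]} (hf : CI N f) (hg : CI N g) : CI N (f * g) := by
  intro i
  rw [coeff_mul, mul_sum]
  refine IsIntegral.sum _ fun x hx => ?_
  have hx' := mem_antidiagonal.1 hx
  have : (N : F) ^ i * (f.coeff x.1 * g.coeff x.2) =
      ((N : F) ^ x.1 * f.coeff x.1) * ((N : F) ^ x.2 * g.coeff x.2) := by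
    rw [← hx', pow_add]
    ring
  rw [this]
  exact (hf _).mul (hg _)

private theorem CI.add {N : ℕ} {f g : F[X]} (hf : CI N f) (hg : CI N g) : CI N (f + g) := by
  intro i
  rw [coeff_add, mul_add]
  exact (hf i).add (hg i)

private theorem CI.one {N : ℕ} : CI N (1 : F[X]) := by
  intro i
  rw [coeff_one]
  split_ifs with h
  · rw [mul_one]
    exact (int_nat N).pow i
  · rw [mul_zero]
    exact isIntegral_zero

private theorem CI.pow {N : ℕ} {f : F[X]} (hf : CI N f) (n : ℕ) : CI N (f ^ n) := by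
  induction n with
  | zero => rw [pow_zero]; exact CI.one
  | succ n ih => rw [pow_succ]; exact ih.mul hf

private theorem CI.prod {N : ℕ} {ι : Type*} (s : Finset ι) (f : ι → F[X]) (h : ∀ i ∈ s, CI N (f i)) :
    CI N (∏ i ∈ s, f i) := by
  classical
  induction s using Finset.induction_on with
  | empty => rw [prod_empty]; exact CI.one
  | insert a s ha ih =>
    rw [prod_insert ha]
    exact (h a (mem_insert_self a s)).mul (ih fun i hi => h i (mem_insert_of_mem hi))

variable [CharZero F]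

/-- a linear polynomial `X / i + C b`, `i ∣ N`, `b` integral -/
private theorem CI.lin {N i : ℕ} (hi : 1 ≤ i) (h : i ∣ N) (b : ℤ) :
    CI N (C ((i : F)⁻¹) * X + C (b : F)) := by
  intro j
  have hi0 : (i : F) ≠ 0 := by exact_mod_cast (by omega : i ≠ 0)
  rw [coeff_add, coeff_C_mul, coeff_X, coeff_C]
  rcases j with _ | _ | j
  · have e : ((N : F) ^ 0 * ((i : F)⁻¹ * (if (1 : ℕ) = 0 then 1 else 0) + if (0 : ℕ) = 0 then (b : F) else 0)) = (b : F) := by simp
    rw [e]
    exact int_int b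
  · obtain ⟨d, rfl⟩ := h
    simp only [zero_add, if_true, mul_one, one_ne_zero, if_false, add_zero, pow_one]
    have : ((i * d : ℕ) : F) * (i : F)⁻¹ = (d : F) := by
      push_cast
      field_simp
    rw [this]
    exact int_nat d
  · have h1 : (1 : ℕ) ≠ j + 1 + 1 := by omega
    simp only [h1, if_false, mul_zero, zero_add]
    have h2 : j + 1 + 1 ≠ 0 := by omega
    simp only [h2, if_false, mul_zero]
    exact isIntegral_zero

private theorem bn_zero : bn F 0 = 1 := by simp [bn]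

private theorem dvd_lcmUpto {x i : ℕ} (h1 : 1 ≤ i) (h2 : i ≤ x) : i ∣ Nat.lcmUpto x :=
  Finset.dvd_lcm (f := id) (Finset.mem_Icc.2 ⟨h1, h2⟩)

private theorem lcmUpto_mono {m n : ℕ} (h : m ≤ n) : Nat.lcmUpto m ∣ Nat.lcmUpto n :=
  Finset.lcm_dvd fun i hi => by
    have := Finset.mem_Icc.1 hi
    exact dvd_lcmUpto this.1 (this.2.trans h)

/-- `binom(y, t+1) = (y/(t+1)) ∏_{0<i≤t} (y/i - 1)` -/
private theorem bn_succ_eq (t : ℕ) : bn F (t + 1) =
    (C (((t + 1 : ℕ) : F)⁻¹) * X + C ((0 : ℤ) : F)) *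
      ∏ i ∈ range t, (C (((i + 1 : ℕ) : F)⁻¹) * X + C ((-1 : ℤ) : F)) := by
  have h : ∀ t : ℕ, ∏ i ∈ range t, (C (((i + 1 : ℕ) : F)⁻¹) * X + C ((-1 : ℤ) : F)) =
      C ((t.factorial : F)⁻¹) * ∏ i ∈ range t, (X - C (((i + 1 : ℕ) : F))) := by
    intro t
    induction t with
    | zero => simp
    | succ t ih =>
      rw [prod_range_succ, ih, prod_range_succ, Nat.factorial_succ]
      have h0 : ((t + 1 : ℕ) : F) ≠ 0 := by exact_mod_cast Nat.succ_ne_zero t
      have h1 : C (((t + 1 : ℕ) : F)⁻¹) * C ((t + 1 : ℕ) : F) = (1 : F[X]) := by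
        rw [← C_mul, inv_mul_cancel₀ h0, C_1]
      have h2 : C (((((t + 1) * t.factorial : ℕ)) : F)⁻¹) =
          C (((t + 1 : ℕ) : F)⁻¹) * C ((t.factorial : F)⁻¹) := by
        rw [← C_mul, Nat.cast_mul, mul_inv]
      rw [h2]
      have h3 : C (((-1 : ℤ)) : F) = -(C (((t + 1 : ℕ) : F)⁻¹) * C ((t + 1 : ℕ) : F)) := by
        rw [h1]; simp
      rw [h3]
      ring
  rw [h, bn, prod_range_succ', Nat.factorial_succ]
  have h2 : C (((((t + 1) * t.factorial : ℕ)) : F)⁻¹) =
      C (((t + 1 : ℕ) : F)⁻¹) * C ((t.factorial : F)⁻¹) := by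
    rw [← C_mul, Nat.cast_mul, mul_inv]
  rw [h2]
  simp only [Int.cast_zero, C_0, add_zero, Nat.cast_zero, sub_zero]
  ring

/-- Pascal -/
private theorem bn_pascal (t : ℕ) : (bn F (t + 1)).comp (X + 1) = bn F (t + 1) + bn F t := by
  have e1 : ∏ i ∈ range (t + 1), ((X + 1 : F[X]) - C ((i : ℕ) : F)) =
      (X + 1) * ∏ i ∈ range t, (X - C ((i : ℕ) : F)) := by
    rw [prod_range_succ', mul_comm]
    congr 1
    · simp
    · refine prod_congr rfl fun i _ => ?_
      simp only [Nat.cast_add, Nat.cast_one, C_add, C_1]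
      ring
  have e2 : (bn F (t + 1)).comp (X + 1) = C (((t + 1).factorial : F)⁻¹) *
      ∏ i ∈ range (t + 1), ((X + 1 : F[X]) - C ((i : ℕ) : F)) := by
    rw [bn, mul_comp, C_comp, Polynomial.prod_comp]
    congr 1
    refine prod_congr rfl fun i _ => ?_
    rw [sub_comp, X_comp, C_comp]
  rw [e2, e1, bn, bn, prod_range_succ, Nat.factorial_succ]
  have h0 : ((t + 1 : ℕ) : F) ≠ 0 := by exact_mod_cast Nat.succ_ne_zero t
  have h1 : C (((t + 1 : ℕ) : F)⁻¹) * C ((t + 1 : ℕ) : F) = (1 : F[X]) := by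
    rw [← C_mul, inv_mul_cancel₀ h0, C_1]
  have h2 : C (((((t + 1) * t.factorial : ℕ)) : F)⁻¹) =
      C (((t + 1 : ℕ) : F)⁻¹) * C ((t.factorial : F)⁻¹) := by
    rw [← C_mul, Nat.cast_mul, mul_inv]
  have h3 : C ((t + 1 : ℕ) : F) = C (t : F) + 1 := by simp
  rw [h2]
  rw [h3] at h1
  linear_combination (C ((t.factorial : F)⁻¹) * ∏ i ∈ range t, (X - C ((i : ℕ) : F))) * h1

private theorem CI_bn {x : ℕ} (a : ℕ) : ∀ t ≤ x, CI (Nat.lcmUpto x) ((bn F t).comp (X + C (a : F))) := by
  induction a with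
  | zero =>
    intro t ht
    have : (X + C ((0 : ℕ) : F)) = (X : F[X]) := by simp
    rw [this, comp_X]
    rcases t with _ | t
    · rw [bn_zero]; exact CI.one
    · rw [bn_succ_eq]
      refine (CI.lin (by omega) (dvd_lcmUpto (by omega) ht) 0).mul (CI.prod _ _ fun i hi => ?_)
      have := mem_range.1 hi
      exact CI.lin (by omega) (dvd_lcmUpto (by omega) (by omega)) (-1)
  | succ a ih =>
    intro t ht
    rcases t with _ | t
    · rw [bn_zero, one_comp]; exact CI.one
    · have : (bn F (t + 1)).comp (X + C (((a + 1 : ℕ)) : F)) =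
          (bn F (t + 1)).comp (X + C (a : F)) + (bn F t).comp (X + C (a : F)) := by
        have h1 : (X + C (((a + 1 : ℕ)) : F) : F[X]) = (X + 1 : F[X]).comp (X + C (a : F)) := by
          rw [add_comp, X_comp, one_comp]
          simp only [Nat.cast_add, Nat.cast_one, C_add, C_1]
          ring
        rw [h1, ← comp_assoc, bn_pascal, add_comp]
      rw [this]
      exact (ih _ ht).add (ih _ (by omega))

private theorem CI_PB {x : ℕ} (hx : 1 ≤ x) (a i : ℕ) :
    CI (Nat.lcmUpto x) ((PB F x i).comp (X + C (a : F))) := by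
  rw [PB, mul_comp, pow_comp]
  exact ((CI_bn a x le_rfl).pow _).mul (CI_bn a _ (Nat.mod_lt _ hx).le)

private theorem CI.coeff {N V : ℕ} {f : F[X]} (hf : CI N f) {i : ℕ} (h : i ≤ V) :
    IsIntegral ℤ ((N : F) ^ V * f.coeff i) := by
  have : (N : F) ^ V * f.coeff i = (N : F) ^ (V - i) * ((N : F) ^ i * f.coeff i) := by
    rw [← mul_assoc, ← pow_add]
    congr 2
    omega
  rw [this]
  exact ((int_nat N).pow _).mul (hf i)

/-- the coefficients of a product of linear polynomials -/
private theorem coeff_prod_lin {ι : Type*} [DecidableEq ι] (T : Finset ι) (b : F) (g : ι → F) (l : ℕ) :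
    (∏ k ∈ T, (C b * X + C (g k))).coeff l =
      ∑ S ∈ T.powerset.filter (fun S => S.card = l), b ^ l * ∏ k ∈ T \ S, g k := by
  rw [prod_add]
  rw [finsetSum_coeff, sum_filter]
  refine sum_congr rfl fun S hS => ?_
  have e : (∏ k ∈ S, (C b * X : F[X])) * ∏ k ∈ T \ S, C (g k) =
      C (b ^ S.card * ∏ k ∈ T \ S, g k) * X ^ S.card := by
    rw [prod_const, mul_pow, C_mul, C_pow, map_prod]
    ring
  rw [e, coeff_C_mul, coeff_X_pow]
  split_ifs with h1 h2 h3
  · rw [mul_one, h1]
  · exact absurd h1.symm h2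
  · exact absurd h3.symm h1
  · rw [mul_zero]

/-- the key integrality: one summand of `RR` -/
private theorem int_prod (q c m a s l : ℕ) (P : ℕ) (hs : s < q * c * m)
    (hP : (∏ k ∈ range (l + 1), Nat.lcmUpto (q * c * m / (k + 1))) ∣ P) :
    IsIntegral ℤ ((P : F) * (((q * c * m).factorial : F)⁻¹ *
      (∏ k ∈ (range (q * c * m)).erase s,
        (C ((q * c : ℕ) : F) * (X + C (a : F)) - C (k : F))).coeff l)) := by
  classical
  have e : ∏ k ∈ (range (q * c * m)).erase s,
      (C ((q * c : ℕ) : F) * (X + C (a : F)) - C (k : F)) =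
      ∏ k ∈ (range (q * c * m)).erase s,
        (C ((q * c : ℕ) : F) * X + C ((((q * c * a : ℕ) : ℤ) - (k : ℤ) : ℤ) : F)) := by
    refine prod_congr rfl fun k _ => ?_
    rw [Int.cast_sub, C_sub, Int.cast_natCast, Int.cast_natCast, Nat.cast_mul (q * c) a, C_mul]
    ring
  rw [e, coeff_prod_lin, mul_sum, mul_sum]
  refine IsIntegral.sum _ fun S hS => ?_
  obtain ⟨hS1, hS2⟩ := mem_filter.1 hS
  rw [mem_powerset] at hS1
  have hsS : s ∉ S := fun h => (mem_erase.1 (hS1 h)).1 rfl
  have hsub : insert s S ⊆ range (q * c * m) := by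
    intro k hk
    rcases mem_insert.1 hk with rfl | hk
    · exact mem_range.2 hs
    · exact (mem_erase.1 (hS1 hk)).2
  have hset : (range (q * c * m)).erase s \ S = range (q * c * m) \ insert s S := by
    ext k
    simp only [mem_sdiff, mem_erase, mem_insert, ne_eq, not_or]
    tauto
  have hG := H22OD.lemG (q * c * m) ((q * c * a : ℕ) : ℤ) (insert s S) hsub
  rw [card_insert_of_notMem hsS, hS2] at hG
  obtain ⟨d, hd⟩ := hP
  obtain ⟨z, hz⟩ := hG
  rw [hset]
  have hM : ((q * c * m).factorial : F) ≠ 0 := by exact_mod_cast Nat.factorial_ne_zero _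
  have hz' : (∏ k ∈ range (l + 1), (Nat.lcmUpto (q * c * m / (k + 1)) : F)) *
      ∏ k ∈ range (q * c * m) \ insert s S, ((((q * c * a : ℕ) : ℤ) - (k : ℤ) : ℤ) : F) =
      ((q * c * m).factorial : F) * (z : F) := by
    have := congrArg (Int.cast : ℤ → F) hz
    push_cast at this ⊢
    exact this
  have hfin : (P : F) * (((q * c * m).factorial : F)⁻¹ * (((q * c : ℕ) : F) ^ l *
      ∏ k ∈ range (q * c * m) \ insert s S, ((((q * c * a : ℕ) : ℤ) - (k : ℤ) : ℤ) : F))) =
      (d : F) * ((q * c : ℕ) : F) ^ l * (z : F) := by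
    have hPd : (P : F) = (∏ k ∈ range (l + 1), (Nat.lcmUpto (q * c * m / (k + 1)) : F)) * (d : F) := by
      rw [hd, Nat.cast_mul, Nat.cast_prod]
    rw [hPd]
    have : (∏ k ∈ range (l + 1), (Nat.lcmUpto (q * c * m / (k + 1)) : F)) * (d : F) *
        (((q * c * m).factorial : F)⁻¹ * (((q * c : ℕ) : F) ^ l *
        ∏ k ∈ range (q * c * m) \ insert s S, ((((q * c * a : ℕ) : ℤ) - (k : ℤ) : ℤ) : F))) =
        (d : F) * ((q * c : ℕ) : F) ^ l * (((q * c * m).factorial : F)⁻¹ *
        ((∏ k ∈ range (l + 1), (Nat.lcmUpto (q * c * m / (k + 1)) : F)) *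
        ∏ k ∈ range (q * c * m) \ insert s S, ((((q * c * a : ℕ) : ℤ) - (k : ℤ) : ℤ) : F))) := by
      ring
    rw [this, hz', ← mul_assoc, ← mul_assoc, mul_assoc _ (_)⁻¹ _, inv_mul_cancel₀ hM, mul_one]
  rw [hfin]
  exact ((int_nat d).mul ((int_nat _).pow l)).mul (int_int z)

end

theorem mat_int {k : Type*} [Field k] [NumberField k] (q : ℕ) (W : ℕ → 𝓞 k) (w x : ℕ) (r : Row w x)
    (c : Col q w x) :
    IsIntegral ℤ ((Dn q w x : k) * Mat q (fun h => (W h : k)) w x r c) := by
  classical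
  obtain ⟨a, j⟩ := r
  have hx : 1 ≤ x := by
    rcases Nat.eq_zero_or_pos x with h | h
    · have h1 := a.2
      have h2 : w * x = 0 := by rw [h, mul_zero]
      omega
    · exact h
  have hW : ∀ h, IsIntegral ℤ (wg q (fun h => (W h : k)) h) := by
    intro h
    unfold wg
    split_ifs
    · exact isIntegral_zero
    · exact (W (h % q)).isIntegral_coe
  rw [Dn, Nat.cast_mul, Nat.cast_pow]
  rcases c with ⟨e, i⟩ | ⟨c, i⟩
  · simp only [Mat]
    rw [coeff_mul_X_pow']
    split_ifs with h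
    · have h1 := (CI_PB (F := k) hx a.val i.val).coeff (V := w ^ 3) (i := j.val - e.val) (by omega)
      have : (Nat.lcmUpto x : k) ^ (w ^ 3) *
          ((∏ k ∈ range (w ^ 3), Nat.lcmUpto (q * w * (w * x) / (k + 1)) : ℕ) : k) *
          (((PB k x i.val).comp (X + C ((a.val : ℕ) : k))).coeff (j.val - e.val)) =
          ((∏ k ∈ range (w ^ 3), Nat.lcmUpto (q * w * (w * x) / (k + 1)) : ℕ) : k) *
          ((Nat.lcmUpto x : k) ^ (w ^ 3) *
          (((PB k x i.val).comp (X + C ((a.val : ℕ) : k))).coeff (j.val - e.val))) := by ring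
      rw [this]
      exact (int_nat _).mul h1
    · rw [mul_zero]
      exact isIntegral_zero
  · simp only [Mat]
    rw [coeff_mul, mul_sum]
    refine IsIntegral.sum _ fun y hy => ?_
    have hy' := mem_antidiagonal.1 hy
    have hj := j.2
    have h1 := (CI_PB (F := k) hx a.val i.val).coeff (V := w ^ 3) (i := y.1) (by omega)
    have h2 : IsIntegral ℤ (((∏ k ∈ range (w ^ 3), Nat.lcmUpto (q * w * (w * x) / (k + 1)) : ℕ) : k) *
        (RR q (fun h => (W h : k)) (w * x) (c.val + 1) a.val).coeff y.2) := by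
      rw [RR, coeff_C_mul, finsetSum_coeff, mul_sum, mul_sum]
      refine IsIntegral.sum _ fun h hh => ?_
      obtain ⟨hh1, hh2⟩ := mem_Ioo.1 hh
      rw [coeff_C_mul]
      have hs : q * (c.val + 1) * a.val - h < q * (c.val + 1) * (w * x) := by
        have : q * (c.val + 1) * a.val ≤ q * (c.val + 1) * (w * x) := Nat.mul_le_mul_left _ a.2.le
        omega
      have hP : (∏ k ∈ range (y.2 + 1), Nat.lcmUpto (q * (c.val + 1) * (w * x) / (k + 1))) ∣
          ∏ k ∈ range (w ^ 3), Nat.lcmUpto (q * w * (w * x) / (k + 1)) := by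
        refine dvd_trans (prod_dvd_prod_of_dvd _ _ fun k _ => ?_)
          (prod_dvd_prod_of_subset _ _ _ (range_subset_range.2 (by omega : y.2 + 1 ≤ w ^ 3)))
        refine lcmUpto_mono (Nat.div_le_div_right ?_)
        exact Nat.mul_le_mul_right _ (Nat.mul_le_mul_left _ (by have := c.2; omega))
      have h3 := int_prod (F := k) q (c.val + 1) (w * x) a.val _ y.2 _ hs hP
      have : ((∏ k ∈ range (w ^ 3), Nat.lcmUpto (q * w * (w * x) / (k + 1)) : ℕ) : k) *
          ((((q * (c.val + 1) * (w * x)).factorial : k))⁻¹ *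
          (wg q (fun h => (W h : k)) h *
          (∏ k' ∈ (range (q * (c.val + 1) * (w * x))).erase (q * (c.val + 1) * a.val - h),
            (C ((q * (c.val + 1) : ℕ) : k) * (X + C ((a.val : ℕ) : k)) - C (k' : k))).coeff y.2)) =
          wg q (fun h => (W h : k)) h *
          (((∏ k ∈ range (w ^ 3), Nat.lcmUpto (q * w * (w * x) / (k + 1)) : ℕ) : k) *
          ((((q * (c.val + 1) * (w * x)).factorial : k))⁻¹ *
          (∏ k' ∈ (range (q * (c.val + 1) * (w * x))).erase (q * (c.val + 1) * a.val - h),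
            (C ((q * (c.val + 1) : ℕ) : k) * (X + C ((a.val : ℕ) : k)) - C (k' : k))).coeff y.2)) := by
        ring
      rw [this]
      exact (hW h).mul h3
    have : (Nat.lcmUpto x : k) ^ (w ^ 3) *
        ((∏ k ∈ range (w ^ 3), Nat.lcmUpto (q * w * (w * x) / (k + 1)) : ℕ) : k) *
        ((((PB k x i.val).comp (X + C ((a.val : ℕ) : k))).coeff y.1) *
        (RR q (fun h => (W h : k)) (w * x) (c.val + 1) a.val).coeff y.2) =
        ((Nat.lcmUpto x : k) ^ (w ^ 3) *
        (((PB k x i.val).comp (X + C ((a.val : ℕ) : k))).coeff y.1)) *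
        (((∏ k ∈ range (w ^ 3), Nat.lcmUpto (q * w * (w * x) / (k + 1)) : ℕ) : k) *
        (RR q (fun h => (W h : k)) (w * x) (c.val + 1) a.val).coeff y.2) := by ring
    rw [this]
    exact h1.mul h2

end H22GW
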