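import Pool.Agent.H22.GW.LamShift
import Pool.Agent.H65.FD.KerGen

/-!
# GW KerMod (port of OD KerMod; the linear algebra is `H65FD.ker_gen`)
-/

namespace H22GW

open Finset Polynomial

private theorem km_bn_degree {F : Type*} [Field F] (N : ℕ) (h : (N.factorial : F) ≠ 0) :
    (bn F N).degree = (N : ℕ) := by
  unfold bn
  rw [degree_C_mul (inv_ne_zero h), degree_prod]
  simp only [degree_X_sub_C, sum_const, card_range, nsmul_one]

private theorem km_PB_degree {F : Type*} [Field F] (x i : ℕ) (hx : 0 < x)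
    (h : ∀ N ≤ x, (N.factorial : F) ≠ 0) : (PB F x i).degree = (i : ℕ) := by
  unfold PB
  rw [degree_mul, degree_pow, km_bn_degree x (h x le_rfl),
    km_bn_degree (i % x) (h _ (Nat.mod_lt i hx).le), nsmul_eq_mul, ← Nat.cast_mul, ← Nat.cast_add,
    Nat.div_add_mod' i x]

private theorem km_mat {F : Type*} [Field F] (q : ℕ) (W : ℕ → F) (w x : ℕ) :
    Mat q W w x = H65FD.KMat w w (w ^ 3 / 4 * x) (w * x) (w ^ 3)
      (fun c => w ^ 3 / 4 * x - q * (c.val + 1) * (w * x)) (PB F x) (fun a => ((a : ℕ) : F))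
      (fun c a => RR q W (w * x) (c.val + 1) a) := by
  funext r c
  rcases c with ⟨e, i⟩ | ⟨c, i⟩
  · rfl
  · rfl

theorem ker_mod {Ω : Type*} [Field Ω] (p : ℕ) [Fact p.Prime] [CharP Ω p] (q : ℕ) (hq : 1 ≤ q)
    (W : ℕ → Ω) (Lam : Polynomial Ω) (hL : LamOK p q W Lam) (w x : ℕ) (hw : 2 ≤ w)
    (hp : q * w * (w * x) < p) (hx : x < p) (hpw : w ^ 3 + 2 ≤ p)
    (hE : ∀ j : ℕ, w ≤ j → j < w ^ 3 → Lam.coeff j = 0) :
    ∑ c ∈ range w, (w ^ 3 / 4 * x - q * (c + 1) * (w * x)) + 1 ≤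
      Module.finrank Ω (LinearMap.ker (Mat q W w x).mulVecLin) + p := by
  have hfac : ∀ N < p, ((N.factorial : ℕ) : Ω) ≠ 0 := by
    intro N hN h0
    rw [CharP.cast_eq_zero_iff Ω p] at h0
    exact absurd ((Nat.Prime.dvd_factorial Fact.out).1 h0) (not_le.2 hN)
  have hN : ∀ c : Fin w, q * (c.val + 1) * (w * x) < p := fun c =>
    lt_of_le_of_lt (Nat.mul_le_mul_right _ (Nat.mul_le_mul_left _ c.isLt)) hp
  have hCX : ∀ r : Ω, (C r * X : Polynomial Ω).natDegree ≤ 1 := fun r =>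
    (natDegree_C_mul_le _ _).trans natDegree_X_le
  have h := H65FD.ker_gen w w (w ^ 3 / 4 * x) (w * x) (w ^ 3) (p - 1) (by omega)
    (Nat.one_le_iff_ne_zero.2 (pow_ne_zero _ (by omega))) (by omega)
    (fun c => w ^ 3 / 4 * x - q * (c.val + 1) * (w * x)) (fun c => Nat.sub_le _ _) (PB Ω x)
    (fun i hi => by
      have hx0 : 0 < x := by
        rcases Nat.eq_zero_or_pos x with h | h
        · rw [h, mul_zero] at hi
          omega
        · exact h
      exact km_PB_degree x i hx0 fun N hN => hfac N (lt_of_le_of_lt hN hx))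
    (fun c => (bn Ω (q * (c.val + 1) * (w * x))).comp (C ((q * (c.val + 1) : ℕ) : Ω) * X))
    (fun c => Lam.comp (C ((c.val + 1 : ℕ) : Ω) * X)) (fun a => ((a : ℕ) : Ω))
    (fun c a => RR q W (w * x) (c.val + 1) a)
    (fun c hc => by
      have h3 : (bn Ω (q * (c.val + 1) * (w * x))).natDegree = q * (c.val + 1) * (w * x) :=
        natDegree_eq_of_degree_eq_some (km_bn_degree _ (hfac _ (hN c)))
      have h4 : ((bn Ω (q * (c.val + 1) * (w * x))).comp
          (C ((q * (c.val + 1) : ℕ) : Ω) * X)).natDegree ≤ q * (c.val + 1) * (w * x) := by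
        refine natDegree_comp_le.trans ?_
        rw [h3]
        exact (Nat.mul_le_mul_left _ (hCX _)).trans (mul_one _).le
      omega)
    (fun c => by
      refine natDegree_comp_le.trans ?_
      exact (Nat.mul_le_mul hL.1.le (hCX _)).trans (mul_one _).le)
    (fun c j h1 h2 => by
      rw [comp_C_mul_X_coeff, hE j h1 h2, zero_mul])
    (fun c a ha => by
      have h2 := lam_shift p q hq W Lam hL (w * x) (c.val + 1) a (by omega) ha (hN c)
      rw [comp_assoc, comp_assoc, mul_comp, mul_comp, C_comp, C_comp, X_comp]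
      exact h2)
  rw [← km_mat] at h
  have h5 : ∑ c : Fin w, (w ^ 3 / 4 * x - q * (c.val + 1) * (w * x))
      = ∑ c ∈ range w, (w ^ 3 / 4 * x - q * (c + 1) * (w * x)) :=
    Fin.sum_univ_eq_sum_range (fun c => w ^ 3 / 4 * x - q * (c + 1) * (w * x)) w
  have h6 : ∑ c ∈ range w, (w ^ 3 / 4 * x - q * (c + 1) * (w * x)) ≤
      Module.finrank Ω (LinearMap.ker (Mat q W w x).mulVecLin) + (p - 1) := by
    rw [← h5]
    exact h
  have hp1 : 1 ≤ p := by omega
  omega

end H22GW
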