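import Pool.Agent.H22.GW.RsDefs

/-!
# GW RsStep: the recursion `rs (c+1) (a+1) - rs (c+1) a = ρ_(c+1)(a+X)`, cleared of denominators.
-/

namespace H22GW

open Finset Polynomial

variable {F : Type*} [Field F]

private theorem wg_add (q : ℕ) (W : ℕ → F) (h k : ℕ) : wg q W (h + q * k) = wg q W h := by
  unfold wg
  rw [Nat.add_mul_mod_self_left]

private theorem wg_mul (q : ℕ) (W : ℕ → F) (k : ℕ) : wg q W (q * k) = 0 := by
  unfold wg
  rw [Nat.mul_mod_right]
  simp

/-- the factor `qc(a+X) + h` -/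
private theorem lin_comp (q c a h : ℕ) :
    (((C ((q * (c + 1) : ℕ) : F) * X + C (h : F)).comp (X + C (a : F)) : F[X]) : PowerSeries F)
      = PowerSeries.C ((q * (c + 1) * a + h : ℕ) : F)
        + PowerSeries.C ((q * (c + 1) : ℕ) : F) * PowerSeries.X := by
  rw [add_comp, mul_comp, C_comp, X_comp, C_comp]
  rw [Polynomial.coe_add, Polynomial.coe_mul, Polynomial.coe_add, Polynomial.coe_C,
    Polynomial.coe_C, Polynomial.coe_X, Polynomial.coe_C]
  have : ((q * (c + 1) * a + h : ℕ) : F) = ((q * (c + 1) : ℕ) : F) * (a : F) + (h : F) := by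
    push_cast
    ring
  rw [this, map_add, map_mul]
  ring

theorem rs_diff (q : ℕ) (W : ℕ → F) (c a : ℕ) (hq : 1 ≤ q) : rs q W (c + 1) (a + 1) - rs q W (c + 1) a
    = ∑ h ∈ Ioo 0 (q * (c + 1)), PowerSeries.C (wg q W h) *
      (PowerSeries.C ((q * (c + 1) * a + h : ℕ) : F)
        + PowerSeries.C ((q * (c + 1) : ℕ) : F) * PowerSeries.X)⁻¹ := by
  classical
  set G : ℕ → PowerSeries F := fun h => PowerSeries.C (wg q W h) *
    (PowerSeries.C (h : F) + PowerSeries.C ((q * (c + 1) : ℕ) : F) * PowerSeries.X)⁻¹ with hG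
  have h0 : ∀ k : ℕ, G (q * k) = 0 := by
    intro k
    rw [hG]
    simp only
    rw [wg_mul]
    simp
  have hrs : ∀ b : ℕ, rs q W (c + 1) b = ∑ h ∈ range (q * (c + 1) * b), G h := by
    intro b
    rcases Nat.eq_zero_or_pos b with rfl | hb
    · simp [rs]
    · have h1 : range (q * (c + 1) * b) = insert 0 (Ioo 0 (q * (c + 1) * b)) := by
        ext x
        have : 0 < q * (c + 1) * b := by positivity
        simp only [mem_range, mem_insert, mem_Ioo]
        omega
      rw [h1, sum_insert (by simp), show G 0 = 0 by simpa using h0 0, zero_add]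
      rfl
  rw [hrs, hrs, show q * (c + 1) * (a + 1) = q * (c + 1) * a + q * (c + 1) by ring,
    sum_range_add_sub_sum_range]
  have h2 : range (q * (c + 1)) = insert 0 (Ioo 0 (q * (c + 1))) := by
    ext x
    have : 0 < q * (c + 1) := by positivity
    simp only [mem_range, mem_insert, mem_Ioo]
    omega
  rw [h2, sum_insert (by simp)]
  have h3 : G (q * (c + 1) * a + 0) = 0 := by
    have := h0 ((c + 1) * a)
    rwa [← mul_assoc] at this
  rw [h3, zero_add]
  refine sum_congr rfl fun h _ => ?_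
  rw [hG]
  simp only
  rw [show q * (c + 1) * a + h = h + q * ((c + 1) * a) by ring, wg_add]

theorem rs_step [CharZero F] (q : ℕ) (W : ℕ → F) (c a : ℕ) (hq : 1 ≤ q) :
    (rs q W (c + 1) (a + 1) - rs q W (c + 1) a) *
        (((denC F q c).comp (X + C (a : F)) : F[X]) : PowerSeries F)
      = (((numC q W c).comp (X + C (a : F)) : F[X]) : PowerSeries F) := by
  classical
  have hden : (((denC F q c).comp (X + C (a : F)) : F[X]) : PowerSeries F)
      = ∏ h ∈ Ioo 0 (q * (c + 1)), (PowerSeries.C ((q * (c + 1) * a + h : ℕ) : F)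
        + PowerSeries.C ((q * (c + 1) : ℕ) : F) * PowerSeries.X) := by
    rw [denC, Polynomial.prod_comp, ← Polynomial.coeToPowerSeries.ringHom_apply, map_prod]
    refine prod_congr rfl fun h _ => ?_
    rw [Polynomial.coeToPowerSeries.ringHom_apply, lin_comp]
  have hnum : (((numC q W c).comp (X + C (a : F)) : F[X]) : PowerSeries F)
      = ∑ h ∈ Ioo 0 (q * (c + 1)), PowerSeries.C (wg q W h) *
        ∏ k ∈ (Ioo 0 (q * (c + 1))).erase h, (PowerSeries.C ((q * (c + 1) * a + k : ℕ) : F)
        + PowerSeries.C ((q * (c + 1) : ℕ) : F) * PowerSeries.X) := by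
    rw [numC, ← Polynomial.coe_compRingHom_apply, map_sum,
      ← Polynomial.coeToPowerSeries.ringHom_apply, map_sum]
    refine sum_congr rfl fun h _ => ?_
    rw [Polynomial.coe_compRingHom_apply, mul_comp, C_comp, map_mul, Polynomial.prod_comp, map_prod]
    rw [Polynomial.coeToPowerSeries.ringHom_apply, Polynomial.coe_C]
    congr 1
    refine prod_congr rfl fun k _ => ?_
    rw [Polynomial.coeToPowerSeries.ringHom_apply, lin_comp]
  rw [hden, hnum, rs_diff q W c a hq, sum_mul]
  refine sum_congr rfl fun h hh => ?_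
  rw [← mul_prod_erase _ _ hh, mul_assoc, ← mul_assoc _⁻¹, PowerSeries.inv_mul_cancel, one_mul]
  rw [map_add, map_mul, PowerSeries.constantCoeff_X, mul_zero, add_zero,
    PowerSeries.constantCoeff_C]
  rw [mem_Ioo] at hh
  exact_mod_cast (by omega : q * (c + 1) * a + h ≠ 0)

end H22GW
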