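import Pool.Agent.H22.GW.Ind
import Pool.Agent.H22.GW.RsStep
import Pool.Agent.H83.FD.AddEst

/-!
# GW Zero: the zero estimate

`add_est` (H83/FD/AddEst.lean: bordered Casorati matrix, telescoping equation), `rs_step` (the local relation),
`ind_gw` (the functions `numC c / denC c` have no nontrivial telescoping combination).
-/

namespace H22GW

open Finset Polynomial

variable {F : Type*} [Field F]

private theorem denC_deg (q c : ℕ) : (denC F q c).natDegree ≤ q * (c + 1) := by
  unfold denC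
  refine (natDegree_prod_le _ _).trans ?_
  refine (sum_le_card_nsmul _ _ 1 fun h _ => natDegree_linear_le).trans ?_
  rw [Nat.card_Ioo, smul_eq_mul]
  omega

private theorem numC_deg (q : ℕ) (W : ℕ → F) (c : ℕ) : (numC q W c).natDegree ≤ q * (c + 1) := by
  unfold numC
  refine natDegree_sum_le_of_forall_le _ _ fun h _ => ?_
  refine (natDegree_C_mul_le _ _).trans ?_
  refine (natDegree_prod_le _ _).trans ?_
  refine (sum_le_card_nsmul _ _ 1 fun h _ => natDegree_linear_le).trans ?_
  refine (Nat.mul_le_mul_right _ (card_erase_le)).trans ?_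
  rw [Nat.card_Ioo]
  omega

private theorem denC_ne [CharZero F] (q c : ℕ) (hq : 1 ≤ q) : denC F q c ≠ 0 := by
  unfold denC
  rw [prod_ne_zero_iff]
  intro h _ h0
  have h1 := congrArg (fun P : F[X] => P.coeff 1) h0
  simp only [coeff_add, coeff_C_mul, coeff_X_one, mul_one, coeff_C_succ, add_zero, coeff_zero] at h1
  have h2 : ((q * (c + 1) : ℕ) : F) ≠ 0 := Nat.cast_ne_zero.2 (by positivity)
  exact h2 h1

theorem zero_gw [CharZero F] (q : ℕ) (W : ℕ → F) (hW : ∃ h, 0 < h ∧ h < q ∧ W h ≠ 0) (w m n L : ℕ)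
    (Ce B : Fin w → F[X])
    (hC : ∀ e, (Ce e).natDegree < n) (hB : ∀ c, (B c).natDegree < n)
    (hnum : (2 * w + 1) * n + 2 * w ^ 2 * (q * w) < (m - 2 * w) * (L - w))
    (h : ∀ a < m, (PowerSeries.X : PowerSeries F) ^ L ∣
      ∑ e, (((Ce e).comp (X + C (a : F)) * X ^ e.val : F[X]) : PowerSeries F)
        + ∑ c, (((B c).comp (X + C (a : F)) : F[X]) : PowerSeries F) * rs q W (c.val + 1) a) :
    (∀ e, Ce e = 0) ∧ ∀ c, B c = 0 := by
  have hq : 1 ≤ q := by
    obtain ⟨h0, h1, h2, -⟩ := hW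
    omega
  refine Pool.Agent.H83.FD.add_est (d := q * w) (m := m) (W := L) Ce B hC hB (fun c => numC q W c)
    (fun c => denC F q c)
    (fun c => (numC_deg q W c).trans (Nat.mul_le_mul_left q c.isLt))
    (fun c => (denC_deg q c).trans (Nat.mul_le_mul_left q c.isLt))
    (fun c => denC_ne q c hq) (fun c a => rs q W (c.val + 1) a) ?_ ?_ ?_ ?_
  · intro c a _
    rw [mul_comm]
    exact rs_step q W c a hq
  · rintro β ⟨y, hy⟩
    exact ind_gw q W hW w β y hy
  · intro a ha
    have h1 := h a ha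
    have h2 : ∀ e : Fin w, (((Ce e).comp (X + C (a : F)) * X ^ e.val : F[X]) : PowerSeries F) =
        Pool.Agent.H83.FD.kp F (Pool.Agent.H83.FD.sh (a : F) (Ce e)) * PowerSeries.X ^ (e : ℕ) := by
      intro e
      rw [Polynomial.coe_mul, Polynomial.coe_pow, Polynomial.coe_X]
      rfl
    rw [sum_congr rfl fun e _ => h2 e] at h1
    exact h1
  · rw [Fintype.card_fin]
    have h1 : (w + w + 1) * (n - 1) ≤ (2 * w + 1) * n := Nat.mul_le_mul (by omega) (by omega)
    have h2 : (w + w) * w * (q * w) = 2 * w ^ 2 * (q * w) := by ring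
    have h3 : m - (w + w) = m - 2 * w := by omega
    rw [h3, h2]
    omega

end H22GW
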