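import Pool.Agent.H22.GW.RRs
import Pool.Agent.H22.GW.Zero
import Mathlib.Algebra.Polynomial.Sequence

/-!
# GW KerRat (port of OD Ind, RsStep, RRs, Zero, KerRat on top of H83FD add_est, over a field of
characteristic 0).  The pole of `ρ_c(X) = ∑_{0<h<qc, q ∤ h} W_(h mod q)/(qcX+h)` nearest to `0` is
`-h₀/(qc)`, `h₀ = min {h : 0 < h < q, W h ≠ 0}`.
PROOF. `C_e = ∑_i v(inl (e,i)) PB_i`, `B'_c = ∑_i v(inr (c,i)) PB_i`, `B_c = B'_c (bn (q(c+1)m)).comp (C (q(c+1)) X)`
of degree `< n`; `zero_gw` with `m = w x`, `n = w^3/4 x`, `L = w^3` (numerical condition for `w ≥ 4`,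
`x ≥ 8 q + 9`); `PB_i` has degree exactly `i`, so `v = 0`.
-/

namespace H22GW

open Finset Polynomial

section
variable {F : Type*} [Field F] [CharZero F]

theorem KerRat_bn_degree (N : ℕ) : (bn F N).degree = N := by
  unfold bn
  rw [degree_mul, degree_C (inv_ne_zero (by exact_mod_cast N.factorial_ne_zero)), zero_add,
    degree_prod, sum_congr rfl fun k _ => degree_X_sub_C ((k : ℕ) : F)]
  simp

theorem KerRat_bn_ne (N : ℕ) : bn F N ≠ 0 := by
  intro h
  have := KerRat_bn_degree (F := F) N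
  rw [h, degree_zero] at this
  exact absurd this (by simp)

theorem KerRat_PB_degree (x : ℕ) (i : ℕ) : (PB F x i).degree = i := by
  unfold PB
  rw [degree_mul, degree_pow, KerRat_bn_degree, KerRat_bn_degree]
  have h := Nat.div_add_mod i x
  calc (i / x) • (x : WithBot ℕ) + ((i % x : ℕ) : WithBot ℕ)
      = ((x * (i / x) + i % x : ℕ) : WithBot ℕ) := by
        rw [nsmul_eq_mul]
        push_cast
        ring
    _ = i := by rw [h]

/-- the sequence of the `PB` -/
noncomputable def KerRat_seq (F : Type*) [Field F] [CharZero F] (x : ℕ) : Polynomial.Sequence F where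
  elems' := PB F x
  degree_eq' := KerRat_PB_degree x

/-- combinations of the basis -/
noncomputable def KerRat_cmb (x n : ℕ) (v : Fin n → F) : F[X] := ∑ i, C (v i) * PB F x i

theorem KerRat_cmb_zero {x n : ℕ} {v : Fin n → F} (h : KerRat_cmb x n v = 0) : v = 0 := by
  have h1 : LinearIndependent F (KerRat_seq F x : ℕ → F[X]) := Sequence.linearIndependent _
  have h2 : LinearIndependent F (fun i : Fin n => (KerRat_seq F x : ℕ → F[X]) i.val) :=
    h1.comp _ Fin.val_injective
  rw [Fintype.linearIndependent_iff] at h2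
  funext i
  refine h2 v ?_ i
  rw [← h]
  unfold KerRat_cmb
  refine sum_congr rfl fun i _ => ?_
  rw [smul_eq_C_mul]
  rfl

theorem KerRat_cmb_degree {x n : ℕ} (v : Fin n → F) : (KerRat_cmb x n v).degree < n := by
  unfold KerRat_cmb
  refine (degree_sum_le _ _).trans_lt ((Finset.sup_lt_iff (WithBot.bot_lt_coe n)).2 ?_)
  intro i _
  by_cases h : v i = 0
  · rw [h, C_0, zero_mul, degree_zero]
    exact WithBot.bot_lt_coe n
  · rw [degree_C_mul h, KerRat_PB_degree]
    exact WithBot.coe_lt_coe.2 i.isLt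

end

theorem KerRat_num (q w x : ℕ) (hw : 4 ≤ w) (hx : 8 * q + 9 ≤ x) :
    (2 * w + 1) * (w ^ 3 / 4 * x) + 2 * w ^ 2 * (q * w) < (w * x - 2 * w) * (w ^ 3 - w) := by
  have h1 : 4 * (w ^ 3 / 4) ≤ w ^ 3 := Nat.mul_div_le _ _
  obtain ⟨z, rfl⟩ : ∃ z, x = z + 2 := ⟨x - 2, by omega⟩
  obtain ⟨v, hv⟩ : ∃ v, w ^ 2 = v + 1 := ⟨w ^ 2 - 1, by
    have : 0 < w ^ 2 := by positivity
    omega⟩
  obtain ⟨Q, hQ⟩ : ∃ Q, Q = w ^ 3 / 4 := ⟨_, rfl⟩
  rw [← hQ] at h1 ⊢
  have e1 : w * (z + 2) - 2 * w = w * z := by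
    rw [Nat.sub_eq_iff_eq_add (by nlinarith)]
    ring
  have e2 : w ^ 3 - w = w * v := by
    have : w ^ 3 = w * v + w := by
      rw [pow_succ, hv]
      ring
    omega
  rw [e1, e2]
  have h2 : 4 * ((2 * w + 1) * (Q * (z + 2))) ≤ (2 * w + 1) * (w ^ 3 * (z + 2)) := by
    calc 4 * ((2 * w + 1) * (Q * (z + 2))) = (2 * w + 1) * ((4 * Q) * (z + 2)) := by ring
      _ ≤ _ := by gcongr
  have hz : 8 * q + 7 ≤ z := by omega
  have h5 : (2 * w + 1) * w * (z + 2) + 8 * q * w < 4 * z * v := by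
    have h6 : 4 * z * v + 4 * z = 4 * z * w ^ 2 := by rw [hv]; ring
    have h7 : 4 * (w * z) ≤ w ^ 2 * z := by nlinarith
    have h8 : w ^ 2 * (8 * q + 7) ≤ w ^ 2 * z := Nat.mul_le_mul_left _ hz
    have h9 : w * q ≤ w ^ 2 * q := by nlinarith [Nat.zero_le (w * q)]
    have h10 : 4 * w ≤ w ^ 2 := by nlinarith
    have h11 : 4 * z ≤ w * z := Nat.mul_le_mul_right _ hw
    nlinarith
  have h3 : (2 * w + 1) * (w ^ 3 * (z + 2)) + 4 * (2 * w ^ 2 * (q * w)) < 4 * (w * z * (w * v)) := by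
    have hw2 : 0 < w ^ 2 := by positivity
    calc (2 * w + 1) * (w ^ 3 * (z + 2)) + 4 * (2 * w ^ 2 * (q * w))
        = w ^ 2 * ((2 * w + 1) * w * (z + 2) + 8 * q * w) := by ring
      _ < w ^ 2 * (4 * z * v) := Nat.mul_lt_mul_of_pos_left h5 hw2
      _ = _ := by ring
  omega

theorem ker_rat {F : Type*} [Field F] [CharZero F] (q : ℕ) (W : ℕ → F)
    (hW : ∃ h, 0 < h ∧ h < q ∧ W h ≠ 0) : ∃ w₁ : ℕ, ∀ w : ℕ, w₁ ≤ w → ∃ x₁ : ℕ, ∀ x : ℕ, x₁ ≤ x →
    ∀ v : Col q w x → F, (Mat q W w x).mulVec v = 0 → v = 0 := by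
  refine ⟨4, fun w hw => ⟨8 * q + 9, fun x hx v hv => ?_⟩⟩
  have hq : 1 ≤ q := by
    obtain ⟨h0, h1, h2, -⟩ := hW
    omega
  set n := w ^ 3 / 4 * x with hn
  set m := w * x with hm
  have hn0 : 0 < n := by
    have h1 : 4 ≤ w ^ 3 := by nlinarith [pow_pos (show 0 < w by omega) 2]
    have : 0 < w ^ 3 / 4 := Nat.div_pos h1 (by norm_num)
    have hx0 : 0 < x := by omega
    positivity
  set Ce : Fin w → F[X] := fun e => KerRat_cmb x n (fun i => v (Sum.inl (e, i))) with hCe
  set B' : Fin w → F[X] := fun c =>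
    KerRat_cmb x (n - q * (c.val + 1) * m) (fun i => v (Sum.inr ⟨c, i⟩)) with hB'
  set B : Fin w → F[X] := fun c =>
    B' c * (bn F (q * (c.val + 1) * m)).comp (C ((q * (c.val + 1) : ℕ) : F) * X) with hB
  have hdC : ∀ e, (Ce e).natDegree < n := fun e => by
    by_cases h0 : Ce e = 0
    · rw [h0, natDegree_zero]
      exact hn0
    · exact (natDegree_lt_iff_degree_lt h0).2 (KerRat_cmb_degree _)
  have hcne : ∀ c : Fin w, (C ((q * (c.val + 1) : ℕ) : F) * X : F[X]).natDegree = 1 := fun c =>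
    natDegree_C_mul_X _ (Nat.cast_ne_zero.2 (by positivity))
  have hbne : ∀ c : Fin w, (bn F (q * (c.val + 1) * m)).comp
      (C ((q * (c.val + 1) : ℕ) : F) * X) ≠ 0 := by
    intro c h0
    rcases comp_eq_zero_iff.1 h0 with h1 | h1
    · exact KerRat_bn_ne _ h1
    · have := hcne c
      rw [h1.2, natDegree_C] at this
      exact absurd this (by norm_num)
  have hdB : ∀ c, (B c).natDegree < n := fun c => by
    by_cases h0 : B' c = 0
    · simp only [hB, h0, zero_mul, natDegree_zero]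
      exact hn0
    · have h1 : (B' c).natDegree < n - q * (c.val + 1) * m :=
        (natDegree_lt_iff_degree_lt h0).2 (KerRat_cmb_degree _)
      simp only [hB]
      rw [natDegree_mul h0 (hbne c), natDegree_comp, hcne c, mul_one,
        natDegree_eq_of_degree_eq_some (KerRat_bn_degree _)]
      omega
  have key := zero_gw q W hW w m n (w ^ 3) Ce B hdC hdB (KerRat_num q w x hw hx) ?_
  · obtain ⟨hC0, hB0⟩ := key
    have hB'0 : ∀ c, B' c = 0 := fun c => by
      rcases mul_eq_zero.1 (hB0 c) with h | h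
      · exact h
      · exact absurd h (hbne c)
    funext z
    rcases z with ⟨e, i⟩ | ⟨c, i⟩
    · exact congrFun (KerRat_cmb_zero (hC0 e)) i
    · exact congrFun (KerRat_cmb_zero (hB'0 c)) i
  · intro a ha
    have e1 : ∑ e, (((Ce e).comp (X + C (a : F)) * X ^ e.val : F[X]) : PowerSeries F)
        + ∑ c, (((B c).comp (X + C (a : F)) : F[X]) : PowerSeries F) * rs q W (c.val + 1) a =
        ((∑ e, (Ce e).comp (X + C (a : F)) * X ^ e.val +
          ∑ c, (B' c).comp (X + C (a : F)) * RR q W m (c.val + 1) a : F[X]) : PowerSeries F) := by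
      rw [← Polynomial.coeToPowerSeries.ringHom_apply, map_add, map_sum, map_sum]
      simp only [Polynomial.coeToPowerSeries.ringHom_apply]
      congr 1
      refine sum_congr rfl fun c _ => ?_
      rw [Polynomial.coe_mul, RR_eq q hq W m (c.val + 1) a (by omega) ha, ← mul_assoc,
        ← Polynomial.coe_mul]
      congr 2
      simp only [hB]
      rw [mul_comp, comp_assoc, mul_comp, C_comp, X_comp]
    rw [e1, PowerSeries.X_pow_dvd_iff]
    intro i hi
    rw [Polynomial.coeff_coe]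
    have h2 := congrFun hv (⟨a, ha⟩, ⟨i, hi⟩)
    rw [Matrix.mulVec, dotProduct, Fintype.sum_sum_type, Fintype.sum_prod_type,
      Fintype.sum_sigma] at h2
    rw [coeff_add, finsetSum_coeff, finsetSum_coeff]
    refine Eq.trans ?_ h2
    congr 1
    · refine sum_congr rfl fun e _ => ?_
      simp only [hCe, KerRat_cmb]
      rw [Polynomial.sum_comp, sum_mul, finsetSum_coeff]
      refine sum_congr rfl fun j _ => ?_
      rw [mul_comp, C_comp, mul_assoc, coeff_C_mul, mul_comm]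
      rfl
    · refine sum_congr rfl fun c _ => ?_
      simp only [hB', KerRat_cmb]
      rw [Polynomial.sum_comp, sum_mul, finsetSum_coeff]
      refine sum_congr rfl fun j _ => ?_
      rw [mul_comp, C_comp, mul_assoc, coeff_C_mul, mul_comm]
      rfl

end H22GW
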