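import Pool.Agent.H22.GW.Defs

/-!
# GW RedMat (port of OD RedMat with `RedK`)
-/

namespace H22GW

open Finset Polynomial NumberField

section

variable {k Ω : Type*} [Field k] [NumberField k] [Field Ω] {φ : 𝓞 k →+* Ω}

theorem RedK.coe (a : 𝓞 k) : RedK φ (a : k) (φ a) :=
  ⟨1, a, by simp, by simp, by simp⟩

theorem RedK.nat (n : ℕ) : RedK φ (n : k) (n : Ω) := by
  have h := RedK.coe (φ := φ) ((n : ℕ) : 𝓞 k)
  simpa using h

theorem RedK.zero : RedK φ (0 : k) (0 : Ω) := by simpa using RedK.nat (φ := φ) 0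

theorem RedK.one : RedK φ (1 : k) (1 : Ω) := by simpa using RedK.nat (φ := φ) 1

theorem RedK.add {y y' : k} {z z' : Ω} (h : RedK φ y z) (h' : RedK φ y' z') :
    RedK φ (y + y') (z + z') := by
  obtain ⟨n, a, h1, h2, h3⟩ := h
  obtain ⟨m, b, g1, g2, g3⟩ := h'
  refine ⟨n * m, m * a + n * b, ?_, ?_, ?_⟩
  · rw [Nat.cast_mul]
    exact mul_ne_zero h1 g1
  · show ((n * m : ℕ) : k) * (y + y') = algebraMap (𝓞 k) k (m * a + n * b)
    rw [Nat.cast_mul, map_add, map_mul, map_mul, map_natCast, map_natCast]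
    linear_combination (m : k) * h2 + (n : k) * g2
  · rw [map_add, map_mul, map_mul, map_natCast, map_natCast, h3, g3, Nat.cast_mul]
    ring

theorem RedK.neg {y : k} {z : Ω} (h : RedK φ y z) : RedK φ (-y) (-z) := by
  obtain ⟨n, a, h1, h2, h3⟩ := h
  refine ⟨n, -a, h1, ?_, ?_⟩
  · show (n : k) * (-y) = algebraMap (𝓞 k) k (-a)
    rw [map_neg]
    linear_combination -h2
  · rw [map_neg, h3]
    ring

theorem RedK.sub {y y' : k} {z z' : Ω} (h : RedK φ y z) (h' : RedK φ y' z') :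
    RedK φ (y - y') (z - z') := by
  rw [sub_eq_add_neg, sub_eq_add_neg]
  exact h.add h'.neg

theorem RedK.mul {y y' : k} {z z' : Ω} (h : RedK φ y z) (h' : RedK φ y' z') :
    RedK φ (y * y') (z * z') := by
  obtain ⟨n, a, h1, h2, h3⟩ := h
  obtain ⟨m, b, g1, g2, g3⟩ := h'
  refine ⟨n * m, a * b, ?_, ?_, ?_⟩
  · rw [Nat.cast_mul]
    exact mul_ne_zero h1 g1
  · show ((n * m : ℕ) : k) * (y * y') = algebraMap (𝓞 k) k (a * b)
    rw [Nat.cast_mul, map_mul]
    linear_combination ((m : k) * y') * h2 + (algebraMap (𝓞 k) k a) * g2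
  · rw [map_mul, h3, g3, Nat.cast_mul]
    ring

theorem RedK.inv_nat {n : ℕ} (hn : (n : Ω) ≠ 0) : RedK φ ((n : k)⁻¹) ((n : Ω)⁻¹) := by
  have hn0 : n ≠ 0 := by
    rintro rfl
    exact hn Nat.cast_zero
  refine ⟨n, 1, hn, ?_, ?_⟩
  · show (n : k) * (n : k)⁻¹ = algebraMap (𝓞 k) k 1
    rw [map_one]
    exact mul_inv_cancel₀ (Nat.cast_ne_zero.mpr hn0)
  · rw [map_one]
    exact (mul_inv_cancel₀ hn).symm

theorem RedK.pow {y : k} {z : Ω} (h : RedK φ y z) (n : ℕ) : RedK φ (y ^ n) (z ^ n) := by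
  induction n with
  | zero => simpa using RedK.one
  | succ n ih => rw [pow_succ, pow_succ]; exact ih.mul h

theorem RedK.sum {ι : Type*} (s : Finset ι) {f : ι → k} {g : ι → Ω}
    (h : ∀ i ∈ s, RedK φ (f i) (g i)) : RedK φ (∑ i ∈ s, f i) (∑ i ∈ s, g i) := by
  classical
  induction s using Finset.induction_on with
  | empty => simpa using RedK.zero
  | insert a s ha ih =>
    rw [Finset.sum_insert ha, Finset.sum_insert ha]
    exact (h a (Finset.mem_insert_self a s)).add
      (ih fun i hi => h i (Finset.mem_insert_of_mem hi))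

/-- all coefficients reduce -/
def RedP (φ : 𝓞 k →+* Ω) (f : k[X]) (g : Polynomial Ω) : Prop := ∀ i, RedK φ (f.coeff i) (g.coeff i)

theorem RedP.C {a : k} {b : Ω} (h : RedK φ a b) :
    RedP φ (Polynomial.C a) (Polynomial.C b) := by
  intro i
  rw [coeff_C, coeff_C]
  split_ifs
  · exact h
  · exact RedK.zero

theorem RedP.X : RedP φ (Polynomial.X) (Polynomial.X) := by
  intro i
  rw [coeff_X, coeff_X]
  split_ifs
  · exact RedK.one
  · exact RedK.zero

theorem RedP.zero : RedP φ 0 0 := by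
  intro i
  simpa using RedK.zero (φ := φ)

theorem RedP.one : RedP φ 1 1 := by
  simpa using RedP.C (RedK.one (φ := φ))

theorem RedP.add {f f' : k[X]} {g g' : Polynomial Ω} (h : RedP φ f g) (h' : RedP φ f' g') :
    RedP φ (f + f') (g + g') := by
  intro i
  rw [coeff_add, coeff_add]
  exact (h i).add (h' i)

theorem RedP.sub {f f' : k[X]} {g g' : Polynomial Ω} (h : RedP φ f g) (h' : RedP φ f' g') :
    RedP φ (f - f') (g - g') := by
  intro i
  rw [coeff_sub, coeff_sub]
  exact (h i).sub (h' i)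

theorem RedP.mul {f f' : k[X]} {g g' : Polynomial Ω} (h : RedP φ f g) (h' : RedP φ f' g') :
    RedP φ (f * f') (g * g') := by
  intro i
  rw [coeff_mul, coeff_mul]
  exact RedK.sum _ fun x _ => (h _).mul (h' _)

theorem RedP.pow {f : k[X]} {g : Polynomial Ω} (h : RedP φ f g) (n : ℕ) :
    RedP φ (f ^ n) (g ^ n) := by
  induction n with
  | zero => simpa using RedP.one
  | succ n ih => rw [pow_succ, pow_succ]; exact ih.mul h

theorem RedP.sum {ι : Type*} (s : Finset ι) {f : ι → k[X]} {g : ι → Polynomial Ω}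
    (h : ∀ i ∈ s, RedP φ (f i) (g i)) : RedP φ (∑ i ∈ s, f i) (∑ i ∈ s, g i) := by
  intro i
  rw [finsetSum_coeff, finsetSum_coeff]
  exact RedK.sum _ fun j hj => h j hj i

theorem RedP.prod {ι : Type*} (s : Finset ι) {f : ι → k[X]} {g : ι → Polynomial Ω}
    (h : ∀ i ∈ s, RedP φ (f i) (g i)) : RedP φ (∏ i ∈ s, f i) (∏ i ∈ s, g i) := by
  classical
  induction s using Finset.induction_on with
  | empty => simpa using RedP.one
  | insert a s ha ih =>
    rw [Finset.prod_insert ha, Finset.prod_insert ha]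
    exact (h a (Finset.mem_insert_self a s)).mul
      (ih fun i hi => h i (Finset.mem_insert_of_mem hi))

theorem RedP.comp {f f' : k[X]} {g g' : Polynomial Ω} (h : RedP φ f g) (h' : RedP φ f' g') :
    RedP φ (f.comp f') (g.comp g') := by
  unfold Polynomial.comp
  rw [eval₂_eq_sum_range' (n := max f.natDegree g.natDegree + 1) _ (by omega),
    eval₂_eq_sum_range' (n := max f.natDegree g.natDegree + 1) _ (by omega)]
  exact RedP.sum _ fun i _ => (RedP.C (h i)).mul (h'.pow i)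

theorem fact_ne (p : ℕ) [hpf : Fact p.Prime] [CharP Ω p] {N : ℕ} (h : N < p) :
    ((N.factorial : ℕ) : Ω) ≠ 0 := by
  rw [Ne, CharP.cast_eq_zero_iff Ω p, hpf.out.dvd_factorial]
  omega

theorem redP_bn (p : ℕ) [hpf : Fact p.Prime] [CharP Ω p] {N : ℕ} (h : N < p) :
    RedP φ (bn k N) (bn Ω N) := by
  unfold bn
  exact (RedP.C (RedK.inv_nat (fact_ne p h))).mul
    (RedP.prod _ fun i _ => RedP.X.sub (RedP.C (RedK.nat i)))

theorem redP_PB (p : ℕ) [hpf : Fact p.Prime] [CharP Ω p] {x i : ℕ} (hx0 : 0 < x) (hx : x < p) :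
    RedP φ (PB k x i) (PB Ω x i) := by
  unfold PB
  exact ((redP_bn p hx).pow _).mul (redP_bn p ((Nat.mod_lt i hx0).trans hx))

theorem redP_XC (a : ℕ) :
    RedP φ (Polynomial.X + Polynomial.C (a : k)) (Polynomial.X + Polynomial.C (a : Ω)) :=
  RedP.X.add (RedP.C (RedK.nat a))

theorem redK_wg (q : ℕ) (W : ℕ → 𝓞 k) (h : ℕ) :
    RedK φ (wg q (fun h => (W h : k)) h) (wg q (fun h => φ (W h)) h) := by
  unfold wg
  split_ifs
  · exact RedK.zero
  · exact RedK.coe _

theorem redP_RR (p : ℕ) [hpf : Fact p.Prime] [CharP Ω p] (q : ℕ) (W : ℕ → 𝓞 k) {m c a : ℕ}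
    (h : q * c * m < p) :
    RedP φ (RR q (fun h => (W h : k)) m c a) (RR q (fun h => φ (W h)) m c a) := by
  unfold RR
  refine (RedP.C (RedK.inv_nat (fact_ne p h))).mul (RedP.sum _ fun j _ => ?_)
  refine (RedP.C (redK_wg q W j)).mul (RedP.prod _ fun k _ => ?_)
  exact ((RedP.C (RedK.nat _)).mul (redP_XC a)).sub (RedP.C (RedK.nat k))

end

theorem mat_red {k Ω : Type*} [Field k] [NumberField k] [Field Ω] (φ : 𝓞 k →+* Ω) (p : ℕ)
    [Fact p.Prime] [CharP Ω p] (q : ℕ) (W : ℕ → 𝓞 k) (w x : ℕ) (hp : q * w * (w * x) < p)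
    (hx : x < p) (r : Row w x) (c : Col q w x) :
    RedK φ (Mat q (fun h => (W h : k)) w x r c) (Mat q (fun h => φ (W h)) w x r c) := by
  rcases c with ⟨e, i⟩ | ⟨c, i⟩
  · have hx0 : 0 < x := by
      rcases Nat.eq_zero_or_pos x with h | h
      · subst h
        exact absurd i.2 (by simp)
      · exact h
    exact ((redP_PB p hx0 hx).comp (redP_XC _)).mul (RedP.X.pow _) _
  · have hx0 : 0 < x := by
      rcases Nat.eq_zero_or_pos x with h | h
      · subst h
        exact absurd i.2 (by simp)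
      · exact h
    have hc : q * (c.val + 1) * (w * x) < p := by
      refine lt_of_le_of_lt ?_ hp
      exact Nat.mul_le_mul_right _ (Nat.mul_le_mul_left _ (by have := c.2; omega))
    exact ((redP_PB p hx0 hx).comp (redP_XC _)).mul (redP_RR p q W hc) _

end H22GW
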