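import Pool.Agent.H22.GW.Defs

/-!
# GW Size (port of OD Size); constants depend on `k, q, W`.
PROOF. A polynomial over `ℂ` has size `P1 f B` if it is majorised by a real polynomial `g` with `g(1) ≤ B`.
`|PB(a+y)|₁ ≤ (e w)^(x w^3/4) e^(w x)`, `|RR m c a|₁ ≤ (1/M!) ∑_h BW ∏_{k≠} (|qca-k| + qc) ≤ BW M e^(M+qc)` with
`M = q c m ≤ q w^2 x`.
-/

namespace H22GW

open Finset Polynomial NumberField

/-- `f` has a majorant with nonnegative coefficients of sum at most `B` -/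
private def P1 (f : ℂ[X]) (B : ℝ) : Prop :=
  ∃ g : ℝ[X], (∀ i, ‖f.coeff i‖ ≤ g.coeff i) ∧ g.eval 1 ≤ B

private theorem eval_one_ge (g : ℝ[X]) (h : ∀ i, 0 ≤ g.coeff i) (i : ℕ) : g.coeff i ≤ g.eval 1 := by
  rw [Polynomial.eval_eq_sum_range]
  simp only [one_pow, mul_one]
  rcases le_or_gt i g.natDegree with hi | hi
  · exact Finset.single_le_sum (f := fun i => g.coeff i) (fun j _ => h j)
      (Finset.mem_range.2 (Nat.lt_succ_of_le hi))
  · rw [Polynomial.coeff_eq_zero_of_natDegree_lt hi]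
    exact Finset.sum_nonneg fun j _ => h j

private theorem P1.coeff {f : ℂ[X]} {B : ℝ} (h : P1 f B) (i : ℕ) : ‖f.coeff i‖ ≤ B := by
  obtain ⟨g, hg, hB⟩ := h
  exact (hg i).trans ((eval_one_ge g (fun j => (norm_nonneg _).trans (hg j)) i).trans hB)

private theorem P1.nonneg {f : ℂ[X]} {B : ℝ} (h : P1 f B) : 0 ≤ B :=
  (norm_nonneg _).trans (h.coeff 0)

private theorem P1.mono {f : ℂ[X]} {B B' : ℝ} (h : P1 f B) (hB : B ≤ B') : P1 f B' := by
  obtain ⟨g, hg, hb⟩ := h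
  exact ⟨g, hg, hb.trans hB⟩

private theorem P1.mul {f f' : ℂ[X]} {B B' : ℝ} (h : P1 f B) (h' : P1 f' B') : P1 (f * f') (B * B') := by
  have hB := h.nonneg
  obtain ⟨g, hg, hb⟩ := h
  obtain ⟨g', hg', hb'⟩ := h'
  refine ⟨g * g', fun i => ?_, ?_⟩
  · rw [Polynomial.coeff_mul, Polynomial.coeff_mul]
    refine (norm_sum_le _ _).trans (Finset.sum_le_sum fun x _ => ?_)
    rw [norm_mul]
    exact mul_le_mul (hg _) (hg' _) (norm_nonneg _) ((norm_nonneg _).trans (hg _))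
  · rw [Polynomial.eval_mul]
    exact mul_le_mul hb hb' ((norm_nonneg _).trans ((hg' 0).trans
      (eval_one_ge g' (fun j => (norm_nonneg _).trans (hg' j)) 0))) hB

private theorem P1.add {f f' : ℂ[X]} {B B' : ℝ} (h : P1 f B) (h' : P1 f' B') : P1 (f + f') (B + B') := by
  obtain ⟨g, hg, hb⟩ := h
  obtain ⟨g', hg', hb'⟩ := h'
  refine ⟨g + g', fun i => ?_, ?_⟩
  · rw [Polynomial.coeff_add, Polynomial.coeff_add]
    exact (norm_add_le _ _).trans (add_le_add (hg i) (hg' i))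
  · rw [Polynomial.eval_add]
    exact add_le_add hb hb'

private theorem P1.sum {ι : Type*} (s : Finset ι) (f : ι → ℂ[X]) (B : ι → ℝ) (h : ∀ i ∈ s, P1 (f i) (B i)) :
    P1 (∑ i ∈ s, f i) (∑ i ∈ s, B i) := by
  classical
  induction s using Finset.induction_on with
  | empty => exact ⟨0, fun i => by simp, by simp⟩
  | insert a s ha ih =>
    rw [Finset.sum_insert ha, Finset.sum_insert ha]
    exact (h a (mem_insert_self a s)).add (ih fun i hi => h i (mem_insert_of_mem hi))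

private theorem P1.const (u : ℂ) : P1 (Polynomial.C u) ‖u‖ := by
  refine ⟨Polynomial.C ‖u‖, fun i => ?_, ?_⟩
  · rw [Polynomial.coeff_C, Polynomial.coeff_C]
    split_ifs <;> simp
  · rw [Polynomial.eval_C]

private theorem P1.one : P1 1 1 := by
  have := P1.const 1
  simpa using this

private theorem P1.X : P1 (Polynomial.X : ℂ[X]) 1 := by
  refine ⟨Polynomial.X, fun i => ?_, by simp⟩
  rw [Polynomial.coeff_X, Polynomial.coeff_X]
  split_ifs <;> simp

private theorem P1.prod {ι : Type*} (s : Finset ι) (f : ι → ℂ[X]) (B : ι → ℝ)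
    (h : ∀ i ∈ s, P1 (f i) (B i)) : P1 (∏ i ∈ s, f i) (∏ i ∈ s, B i) := by
  classical
  induction s using Finset.induction_on with
  | empty => simpa using P1.one
  | insert a s ha ih =>
    rw [Finset.prod_insert ha, Finset.prod_insert ha]
    exact (h a (mem_insert_self a s)).mul (ih fun i hi => h i (mem_insert_of_mem hi))

private theorem P1.pow {f : ℂ[X]} {B : ℝ} (h : P1 f B) (n : ℕ) : P1 (f ^ n) (B ^ n) := by
  induction n with
  | zero => simpa using P1.one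
  | succ n ih =>
    rw [pow_succ, pow_succ]
    exact ih.mul h

/-- linear factors with real coefficients -/
private theorem P1.lin (u v : ℝ) :
    P1 (Polynomial.C (u : ℂ) * Polynomial.X + Polynomial.C (v : ℂ)) (|u| + |v|) := by
  have := ((P1.const (u : ℂ)).mul P1.X).add (P1.const (v : ℂ))
  rw [mul_one, Complex.norm_real, Complex.norm_real, Real.norm_eq_abs, Real.norm_eq_abs] at this
  exact this

/-- `binom(a + y, N)` -/
private theorem bn_bound (w x a N : ℕ) (hw : 1 ≤ w) (ha : a < w * x) (hN : N ≤ x) :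
    P1 ((bn ℂ N).comp (X + C (a : ℂ))) (((w * x : ℕ) : ℝ) ^ N / (N.factorial : ℝ)) := by
  have hx : x ≤ w * x := Nat.le_mul_of_pos_left x hw
  have e : (bn ℂ N).comp (X + C (a : ℂ)) =
      C ((N.factorial : ℂ)⁻¹) * ∏ i ∈ range N, (C ((1 : ℝ) : ℂ) * X + C (((a : ℝ) - (i : ℝ) : ℝ) : ℂ)) := by
    unfold bn
    rw [Polynomial.mul_comp, Polynomial.C_comp, Polynomial.prod_comp]
    congr 1
    refine Finset.prod_congr rfl fun i _ => ?_
    rw [Polynomial.sub_comp, Polynomial.X_comp, Polynomial.C_comp]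
    push_cast
    rw [C_sub, C_1, one_mul]
    ring
  rw [e]
  have h1 : ∀ i ∈ range N, P1 (C ((1 : ℝ) : ℂ) * X + C (((a : ℝ) - (i : ℝ) : ℝ) : ℂ)) ((w * x : ℕ) : ℝ) := by
    intro i hi
    have hiN := Finset.mem_range.1 hi
    refine (P1.lin 1 ((a : ℝ) - (i : ℝ))).mono ?_
    push_cast
    rw [abs_one]
    have ha' : (a : ℝ) + 1 ≤ (w : ℝ) * x := by exact_mod_cast ha
    have hi' : (i : ℝ) + 1 ≤ (w : ℝ) * x := by exact_mod_cast (lt_of_lt_of_le hiN (hN.trans hx))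
    have h0a : (0 : ℝ) ≤ a := Nat.cast_nonneg a
    have h0i : (0 : ℝ) ≤ i := Nat.cast_nonneg i
    rcases abs_cases ((a : ℝ) - (i : ℝ)) with ⟨h, -⟩ | ⟨h, -⟩ <;> rw [h] <;> linarith
  have h2 := P1.prod (range N) _ _ h1
  rw [Finset.prod_const, Finset.card_range] at h2
  have h3 := (P1.const ((N.factorial : ℂ)⁻¹)).mul h2
  refine h3.mono (le_of_eq ?_)
  rw [norm_inv, Complex.norm_natCast]
  ring

/-- `PB(a + y)` -/
private theorem PB_bound (w x a i : ℕ) (hw : 1 ≤ w) (hx : 1 ≤ x) (ha : a < w * x) (hi : i < w ^ 3 / 4 * x) :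
    P1 ((PB ℂ x i).comp (X + C (a : ℂ)))
      (Real.exp ((1 + Real.log w) * x * w ^ 3 + w * x)) := by
  have hw0 : (0 : ℝ) < w := by exact_mod_cast hw
  have hx0 : (0 : ℝ) < x := by exact_mod_cast hx
  have hlog : 0 ≤ Real.log w := Real.log_nonneg (by exact_mod_cast hw)
  have e : (PB ℂ x i).comp (X + C (a : ℂ)) =
      ((bn ℂ x).comp (X + C (a : ℂ))) ^ (i / x) * (bn ℂ (i % x)).comp (X + C (a : ℂ)) := by
    unfold PB
    rw [Polynomial.mul_comp, Polynomial.pow_comp]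
  rw [e]
  have h1 : P1 ((bn ℂ x).comp (X + C (a : ℂ))) (Real.exp ((1 + Real.log w) * x)) := by
    refine (bn_bound w x a x hw ha le_rfl).mono ?_
    have h2 : (x : ℝ) ^ x / (x.factorial : ℝ) ≤ Real.exp x := Real.pow_div_factorial_le_exp _ hx0.le _
    have h3 : ((w * x : ℕ) : ℝ) ^ x / (x.factorial : ℝ) = (w : ℝ) ^ x * ((x : ℝ) ^ x / (x.factorial : ℝ)) := by
      push_cast
      rw [mul_pow]
      ring
    rw [h3]
    have h4 : (w : ℝ) ^ x = Real.exp (Real.log w * x) := by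
      rw [Real.exp_mul, Real.exp_log hw0, Real.rpow_natCast]
    calc (w : ℝ) ^ x * ((x : ℝ) ^ x / (x.factorial : ℝ)) ≤ (w : ℝ) ^ x * Real.exp x :=
          mul_le_mul_of_nonneg_left h2 (by positivity)
      _ = Real.exp ((1 + Real.log w) * x) := by
          rw [h4, ← Real.exp_add]
          congr 1
          ring
  have h2 : P1 ((bn ℂ (i % x)).comp (X + C (a : ℂ))) (Real.exp (w * x)) := by
    refine (bn_bound w x a (i % x) hw ha (Nat.mod_lt _ hx).le).mono ?_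
    have := Real.pow_div_factorial_le_exp ((w * x : ℕ) : ℝ) (by positivity) (i % x)
    rwa [Nat.cast_mul] at this ⊢
  have h3 := (h1.pow (i / x)).mul h2
  refine h3.mono ?_
  rw [← Real.exp_nat_mul, ← Real.exp_add]
  apply Real.exp_le_exp.2
  have h4 : i / x ≤ w ^ 3 := by
    have : i / x < w ^ 3 / 4 := (Nat.div_lt_iff_lt_mul hx).2 hi
    omega
  have h5 : ((i / x : ℕ) : ℝ) ≤ (w : ℝ) ^ 3 := by exact_mod_cast h4
  have h6 : ((i / x : ℕ) : ℝ) * ((1 + Real.log w) * x) ≤ (w : ℝ) ^ 3 * ((1 + Real.log w) * x) :=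
    mul_le_mul_of_nonneg_right h5 (by positivity)
  linarith

/-- `RR q W m c a` -/
private theorem RR_bound (q : ℕ) (hq : 1 ≤ q) (W : ℕ → ℂ) (B : ℝ) (hB : 0 ≤ B) (hW : ∀ h, h < q → ‖W h‖ ≤ B)
    (m c a : ℕ) (hc : 1 ≤ c) (ha : a < m) :
    P1 (RR q W m c a) (Real.exp ((B + 1) * (q * c * m) + q * c)) := by
  set M : ℕ := q * c * m with hM
  have hca : q * c * a ≤ M := Nat.mul_le_mul_left _ ha.le
  have hM1 : 1 ≤ M := by
    have : 0 < q * c * m := Nat.mul_pos (Nat.mul_pos hq hc) (by omega)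
    omega
  have h1 : ∀ h ∈ Ioo 0 (q * c * a), P1 (C (wg q W h) *
      ∏ k ∈ (range M).erase (q * c * a - h), (C ((q * c : ℕ) : ℂ) * (X + C (a : ℂ)) - C (k : ℂ)))
      (B * ((M : ℝ) + q * c) ^ M) := by
    intro h hh
    have hk : ∀ k ∈ (range M).erase (q * c * a - h),
        P1 (C ((q * c : ℕ) : ℂ) * (X + C (a : ℂ)) - C (k : ℂ)) ((M : ℝ) + q * c) := by
      intro k hk
      have hkM : k < M := Finset.mem_range.1 (Finset.mem_of_mem_erase hk)
      have e : C ((q * c : ℕ) : ℂ) * (X + C (a : ℂ)) - C (k : ℂ) =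
          C (((q : ℝ) * c : ℝ) : ℂ) * X + C (((q : ℝ) * c * a - k : ℝ) : ℂ) := by
        push_cast
        rw [C_sub, C_mul (a := (q : ℂ) * c)]
        ring
      rw [e]
      refine (P1.lin _ _).mono ?_
      have h1 : (q : ℝ) * c * a ≤ M := by exact_mod_cast hca
      have h2 : (k : ℝ) ≤ M := by exact_mod_cast hkM.le
      have h3 : (0 : ℝ) ≤ q * c * a := by positivity
      have h4 : (0 : ℝ) ≤ k := Nat.cast_nonneg k
      rw [abs_of_nonneg (by positivity : (0 : ℝ) ≤ q * c)]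
      rcases abs_cases ((q : ℝ) * c * a - (k : ℝ)) with ⟨h, -⟩ | ⟨h, -⟩ <;> rw [h] <;> linarith
    have h2 := P1.prod _ _ _ hk
    rw [Finset.prod_const] at h2
    have h3 := (P1.const (wg q W h)).mul h2
    refine h3.mono ?_
    have h4 : ‖wg q W h‖ ≤ B := by
      unfold wg
      split_ifs
      · rw [norm_zero]
        exact hB
      · exact hW _ (Nat.mod_lt _ hq)
    have hb1 : (1 : ℝ) ≤ (M : ℝ) + q * c := by
      have : (1 : ℝ) ≤ M := by exact_mod_cast hM1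
      have : (0 : ℝ) ≤ q * (c : ℝ) := by positivity
      linarith
    have h5 : ((M : ℝ) + q * c) ^ ((range M).erase (q * c * a - h)).card ≤ ((M : ℝ) + q * c) ^ M := by
      refine pow_le_pow_right₀ hb1 ?_
      refine (Finset.card_le_card (Finset.erase_subset _ _)).trans ?_
      rw [Finset.card_range]
    exact mul_le_mul h4 h5 (by positivity) hB
  have h2 := P1.sum (Ioo 0 (q * c * a)) _ _ h1
  rw [Finset.sum_const, nsmul_eq_mul] at h2
  have h3 := (P1.const ((M.factorial : ℂ)⁻¹)).mul h2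
  have e : RR q W m c a = C ((M.factorial : ℂ)⁻¹) * ∑ h ∈ Ioo 0 (q * c * a),
      (C (wg q W h) * ∏ k ∈ (range M).erase (q * c * a - h),
        (C ((q * c : ℕ) : ℂ) * (X + C (a : ℂ)) - C (k : ℂ))) := rfl
  rw [e]
  refine h3.mono ?_
  have hcard : (((Ioo 0 (q * c * a)).card : ℕ) : ℝ) ≤ M := by
    have : (Ioo 0 (q * c * a)).card ≤ M := by
      rw [Nat.card_Ioo]
      omega
    exact_mod_cast this
  have hpow : ((M : ℝ) + q * c) ^ M / (M.factorial : ℝ) ≤ Real.exp ((M : ℝ) + q * c) :=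
    Real.pow_div_factorial_le_exp _ (by positivity) _
  have hexp : B * M ≤ Real.exp (B * M) := by
    have := Real.add_one_le_exp (B * (M : ℝ))
    linarith
  rw [norm_inv, Complex.norm_natCast]
  calc ((M.factorial : ℝ))⁻¹ * ((((Ioo 0 (q * c * a)).card : ℕ) : ℝ) * (B * ((M : ℝ) + q * c) ^ M))
      = ((((Ioo 0 (q * c * a)).card : ℕ) : ℝ) * B) * (((M : ℝ) + q * c) ^ M / (M.factorial : ℝ)) := by
        ring
    _ ≤ ((M : ℝ) * B) * Real.exp ((M : ℝ) + q * c) := by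
        refine mul_le_mul ?_ hpow (by positivity) (by positivity)
        exact mul_le_mul_of_nonneg_right hcard hB
    _ ≤ Real.exp (B * M) * Real.exp ((M : ℝ) + q * c) := by
        refine mul_le_mul_of_nonneg_right ?_ (Real.exp_pos _).le
        linarith
    _ = Real.exp ((B + 1) * (q * c * m) + q * c) := by
        rw [← Real.exp_add]
        congr 1
        rw [hM]
        push_cast
        ring

private theorem mat_size_C (q : ℕ) (hq : 1 ≤ q) (W : ℕ → ℂ) (B : ℝ) (hB : 0 ≤ B) (hW : ∀ h, h < q → ‖W h‖ ≤ B)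
    (w : ℕ) (hw : 4 ≤ w) (x : ℕ) (hx : 1 ≤ x) (r : Row w x) (c : Col q w x) :
    ‖Mat q W w x r c‖ ≤ Real.exp ((2 + (B + 2) * q) * w ^ 3 * (1 + Real.log w) * x) := by
  have hw1 : 1 ≤ w := by omega
  have hwr : (4 : ℝ) ≤ w := by exact_mod_cast hw
  have hxr : (1 : ℝ) ≤ x := by exact_mod_cast hx
  have hqr : (1 : ℝ) ≤ q := by exact_mod_cast hq
  have hlog : 0 ≤ Real.log w := Real.log_nonneg (by linarith)
  have hw3 : (w : ℝ) ^ 2 ≤ w ^ 3 := by nlinarith [sq_nonneg (w : ℝ)]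
  have hw3' : (w : ℝ) ≤ w ^ 3 := by nlinarith [sq_nonneg (w : ℝ)]
  have hpos : (0 : ℝ) ≤ (w : ℝ) ^ 3 * Real.log w * x := by positivity
  have hp3 : (0 : ℝ) ≤ (w : ℝ) ^ 3 * x := by positivity
  have h3 : (w : ℝ) * x ≤ (w : ℝ) ^ 3 * x := mul_le_mul_of_nonneg_right hw3' (by linarith)
  have h8 : (1 + Real.log w) * x * (w : ℝ) ^ 3 = (w : ℝ) ^ 3 * x + (w : ℝ) ^ 3 * Real.log w * x := by ring
  have h9 : (2 + (B + 2) * q) * (w : ℝ) ^ 3 * (1 + Real.log w) * x =
      (2 + (B + 2) * q) * ((w : ℝ) ^ 3 * x) + (2 + (B + 2) * q) * ((w : ℝ) ^ 3 * Real.log w * x) := by ring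
  have hBq : 0 ≤ (B + 2) * q := by positivity
  have h10 : (w : ℝ) ^ 3 * Real.log w * x ≤ (2 + (B + 2) * q) * ((w : ℝ) ^ 3 * Real.log w * x) := by
    nlinarith
  rcases c with ⟨e, i⟩ | ⟨c, i⟩
  · have h1 := PB_bound w x r.1.val i.val hw1 hx r.1.isLt i.isLt
    have h2 := (h1.mul (P1.X.pow e.val)).coeff r.2.val
    rw [one_pow, mul_one] at h2
    refine h2.trans (Real.exp_le_exp.2 ?_)
    rw [h8, h9]
    nlinarith
  · have hcw : c.val + 1 ≤ w := c.isLt
    have h1 := PB_bound w x r.1.val i.val hw1 hx r.1.isLt (lt_of_lt_of_le i.isLt (Nat.sub_le _ _))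
    have h1' := RR_bound q hq W B hB hW (w * x) (c.val + 1) r.1.val (by omega) r.1.isLt
    have h2 := (h1.mul h1').coeff r.2.val
    rw [← Real.exp_add] at h2
    refine h2.trans (Real.exp_le_exp.2 ?_)
    have hcr : (((c.val + 1 : ℕ) : ℝ)) ≤ w := by exact_mod_cast hcw
    have hc0 : (0 : ℝ) ≤ ((c.val + 1 : ℕ) : ℝ) := by positivity
    have h5 : (B + 1) * (q * (((c.val + 1 : ℕ) : ℝ)) * ((w * x : ℕ) : ℝ)) ≤ (B + 1) * q * ((w : ℝ) ^ 3 * x) := by
      have e1 : q * (((c.val + 1 : ℕ) : ℝ)) * ((w * x : ℕ) : ℝ) ≤ q * ((w : ℝ) ^ 3 * x) := by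
        have : ((c.val + 1 : ℕ) : ℝ) * ((w * x : ℕ) : ℝ) ≤ (w : ℝ) ^ 3 * x := by
          rw [Nat.cast_mul]
          calc ((c.val + 1 : ℕ) : ℝ) * ((w : ℝ) * x) ≤ (w : ℝ) * ((w : ℝ) * x) :=
                mul_le_mul_of_nonneg_right hcr (by positivity)
            _ = (w : ℝ) ^ 2 * x := by ring
            _ ≤ (w : ℝ) ^ 3 * x := mul_le_mul_of_nonneg_right hw3 (by linarith)
        calc (q : ℝ) * (((c.val + 1 : ℕ) : ℝ)) * ((w * x : ℕ) : ℝ)
            = q * (((c.val + 1 : ℕ) : ℝ) * ((w * x : ℕ) : ℝ)) := by ring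
          _ ≤ q * ((w : ℝ) ^ 3 * x) := mul_le_mul_of_nonneg_left this (by linarith)
      calc (B + 1) * (q * (((c.val + 1 : ℕ) : ℝ)) * ((w * x : ℕ) : ℝ)) ≤ (B + 1) * (q * ((w : ℝ) ^ 3 * x)) :=
            mul_le_mul_of_nonneg_left e1 (by linarith)
        _ = (B + 1) * q * ((w : ℝ) ^ 3 * x) := by ring
    have h6 : (q : ℝ) * (((c.val + 1 : ℕ) : ℝ)) ≤ q * ((w : ℝ) ^ 3 * x) := by
      refine mul_le_mul_of_nonneg_left ?_ (by linarith)
      have : (w : ℝ) ≤ (w : ℝ) * x := by nlinarith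
      linarith
    rw [h8, h9]
    have h11 : (2 + (B + 2) * q) * ((w : ℝ) ^ 3 * x) =
        2 * ((w : ℝ) ^ 3 * x) + (B + 1) * q * ((w : ℝ) ^ 3 * x) + q * ((w : ℝ) ^ 3 * x) := by ring
    rw [h11]
    linarith

section
variable {F : Type*} [Field F]

private theorem bn_map (σ : F →+* ℂ) (N : ℕ) : (bn F N).map σ = bn ℂ N := by
  unfold bn
  rw [Polynomial.map_mul, Polynomial.map_prod, Polynomial.map_C, map_inv₀, map_natCast]
  congr 1
  refine Finset.prod_congr rfl fun i _ => ?_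
  rw [Polynomial.map_sub, Polynomial.map_X, Polynomial.map_C, map_natCast]

private theorem PB_map (σ : F →+* ℂ) (x i : ℕ) : (PB F x i).map σ = PB ℂ x i := by
  unfold PB
  rw [Polynomial.map_mul, Polynomial.map_pow, bn_map, bn_map]

private theorem wg_map (σ : F →+* ℂ) (q : ℕ) (W : ℕ → F) (h : ℕ) :
    σ (wg q W h) = wg q (fun h => σ (W h)) h := by
  unfold wg
  split_ifs
  · exact map_zero _
  · rfl

private theorem RR_map (σ : F →+* ℂ) (q : ℕ) (W : ℕ → F) (m c a : ℕ) :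
    (RR q W m c a).map σ = RR q (fun h => σ (W h)) m c a := by
  unfold RR
  rw [Polynomial.map_mul, Polynomial.map_sum, Polynomial.map_C, map_inv₀, map_natCast]
  congr 1
  refine Finset.sum_congr rfl fun h _ => ?_
  rw [Polynomial.map_mul, Polynomial.map_C, wg_map, Polynomial.map_prod]
  congr 1
  refine Finset.prod_congr rfl fun k _ => ?_
  rw [Polynomial.map_sub, Polynomial.map_mul, Polynomial.map_C, Polynomial.map_C, Polynomial.map_add,
    Polynomial.map_X, Polynomial.map_C]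
  simp only [map_natCast]

private theorem Mat_map (σ : F →+* ℂ) (q : ℕ) (W : ℕ → F) (w x : ℕ) (r : Row w x) (c : Col q w x) :
    σ (Mat q W w x r c) = Mat q (fun h => σ (W h)) w x r c := by
  rcases c with ⟨e, i⟩ | ⟨c, i⟩
  · change σ ((((PB F x i).comp (X + C ((r.1.val : ℕ) : F))) * X ^ e.val).coeff r.2.val) =
      ((((PB ℂ x i).comp (X + C ((r.1.val : ℕ) : ℂ))) * X ^ e.val).coeff r.2.val)
    rw [← Polynomial.coeff_map, Polynomial.map_mul, Polynomial.map_comp, PB_map, Polynomial.map_pow,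
      Polynomial.map_add, Polynomial.map_X, Polynomial.map_C, map_natCast]
  · change σ ((((PB F x i).comp (X + C ((r.1.val : ℕ) : F))) * RR q W (w * x) (c.val + 1) r.1.val).coeff
        r.2.val) =
      ((((PB ℂ x i).comp (X + C ((r.1.val : ℕ) : ℂ))) *
        RR q (fun h => σ (W h)) (w * x) (c.val + 1) r.1.val).coeff r.2.val)
    rw [← Polynomial.coeff_map, Polynomial.map_mul, Polynomial.map_comp, PB_map, RR_map,
      Polynomial.map_add, Polynomial.map_X, Polynomial.map_C, map_natCast]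

end

theorem mat_size {k : Type*} [Field k] [NumberField k] (q : ℕ) (hq : 1 ≤ q) (W : ℕ → 𝓞 k) :
    ∃ C₀ : ℝ, 0 < C₀ ∧ ∀ w : ℕ, 4 ≤ w → ∀ x : ℕ, 1 ≤ x → ∀ (r : Row w x)
    (c : Col q w x) (σ : k →+* ℂ), ‖σ (Mat q (fun h => (W h : k)) w x r c)‖
      ≤ Real.exp (C₀ * w ^ 3 * (1 + Real.log w) * x) := by
  classical
  have hfin : Finite (k →+* ℂ) := inferInstance
  obtain ⟨B, hB⟩ := (Set.finite_range fun v : (k →+* ℂ) × Fin q => ‖v.1 ((W (v.2 : ℕ) : 𝓞 k) : k)‖).bddAbove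
  have hB' : ∀ (σ : k →+* ℂ) (h : ℕ), h < q → ‖σ ((W h : 𝓞 k) : k)‖ ≤ max B 0 := fun σ h hh =>
    (hB ⟨(σ, ⟨h, hh⟩), rfl⟩).trans (le_max_left _ _)
  have hB0 : 0 ≤ max B 0 := le_max_right _ _
  refine ⟨2 + (max B 0 + 2) * q, by positivity, fun w hw x hx r c σ => ?_⟩
  rw [Mat_map]
  exact mat_size_C q hq _ (max B 0) hB0 (fun h hh => hB' σ h hh) w hw x hx r c

end H22GW
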