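import Pool.Agent.H22.GW.ArithK
import Pool.Agent.H22.GW.Integr
import Pool.Agent.H22.GW.Size
import Pool.Agent.H22.GW.DenSize
import Pool.Agent.H22.GW.RedMat
import Pool.Agent.H22.GW.KerMod
import Pool.Agent.H22.GW.KerRat

/-!
# GW Gap: assembly
-/

namespace H22GW

open Finset Polynomial NumberField

private theorem card_col (q w x : ℕ) :
    Fintype.card (Col q w x) = w * (w ^ 3 / 4 * x)
      + ∑ c ∈ range w, (w ^ 3 / 4 * x - q * (c + 1) * (w * x)) := by
  simp only [Col, Fintype.card_sum, Fintype.card_prod, Fintype.card_fin, Fintype.card_sigma]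
  rw [Finset.sum_range]

private theorem card_col_le (q w x : ℕ) (h4 : 4 ∣ w) :
    (Fintype.card (Col q w x) : ℝ) ≤ (w : ℝ) ^ 4 * x / 2 := by
  have h1 : Fintype.card (Col q w x) ≤ 2 * (w * (w ^ 3 / 4 * x)) := by
    rw [card_col]
    have h2 : ∑ c ∈ range w, (w ^ 3 / 4 * x - q * (c + 1) * (w * x)) ≤
        ∑ c ∈ range w, (w ^ 3 / 4 * x) := Finset.sum_le_sum fun c _ => Nat.sub_le _ _
    rw [Finset.sum_const, card_range, smul_eq_mul] at h2
    omega
  have h3 : 4 ∣ w ^ 3 := dvd_pow h4 (by norm_num)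
  have h5 : ((w ^ 3 / 4 : ℕ) : ℝ) = (w : ℝ) ^ 3 / 4 := by
    rw [Nat.cast_div h3 (by norm_num)]
    push_cast
    ring
  have h6 : (Fintype.card (Col q w x) : ℝ) ≤ ((2 * (w * (w ^ 3 / 4 * x)) : ℕ) : ℝ) := by
    exact_mod_cast h1
  refine h6.trans (le_of_eq ?_)
  push_cast [h5]
  ring

private theorem sum_c (q w : ℕ) : 2 * ∑ c ∈ range w, q * (c + 1) = q * w * (w + 1) := by
  induction w with
  | zero => simp
  | succ n ih =>
    rw [Finset.sum_range_succ, Nat.mul_add, ih]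
    ring

private theorem kappa_ge (q w x N : ℕ) (h4 : 4 ∣ w) (hw : 5 * q + 5 ≤ w)
    (hx : 32 * N ≤ w ^ 4 * x) :
    4 * N ≤ ∑ c ∈ range w, (w ^ 3 / 4 * x - q * (c + 1) * (w * x)) := by
  obtain ⟨v, rfl⟩ := h4
  have h3 : (4 * v) ^ 3 / 4 = 16 * v ^ 3 := by
    rw [show (4 * v) ^ 3 = 4 * (16 * v ^ 3) by ring]
    exact Nat.mul_div_cancel_left _ (by norm_num)
  rw [h3]
  have h1 : ∑ c ∈ range (4 * v), (16 * v ^ 3 * x) ≤
      ∑ c ∈ range (4 * v), (16 * v ^ 3 * x - q * (c + 1) * (4 * v * x))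
        + ∑ c ∈ range (4 * v), q * (c + 1) * (4 * v * x) := by
    rw [← Finset.sum_add_distrib]
    exact Finset.sum_le_sum fun c _ => le_tsub_add
  rw [Finset.sum_const, card_range, smul_eq_mul, ← Finset.sum_mul] at h1
  have hs := sum_c q (4 * v)
  set S := ∑ c ∈ range (4 * v), q * (c + 1) with hS
  have e0 : 2 * (S * (4 * v * x)) = 16 * q * (4 * v + 1) * (v ^ 2 * x) := by
    calc 2 * (S * (4 * v * x)) = (2 * S) * (4 * v * x) := by ring
      _ = q * (4 * v) * (4 * v + 1) * (4 * v * x) := by rw [hs]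
      _ = _ := by ring
  have h2 : S * (4 * v * x) + 4 * N ≤ 4 * v * (16 * v ^ 3 * x) := by
    have e1 : (4 * v) ^ 4 * x = 256 * (v ^ 4 * x) := by ring
    rw [e1] at hx
    have e2 : 4 * N ≤ 32 * (v ^ 4 * x) := by omega
    have e3 : 16 * q * (4 * v + 1) * (v ^ 2 * x) ≤ 64 * (v ^ 4 * x) := by
      have e5 : 64 * (v ^ 4 * x) = (64 * v ^ 2) * (v ^ 2 * x) := by ring
      rw [e5]
      refine Nat.mul_le_mul_right _ ?_
      nlinarith
    have e6 : 4 * v * (16 * v ^ 3 * x) = 64 * (v ^ 4 * x) := by ring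
    omega
  omega

private theorem thmB (k : Type*) [Field k] [NumberField k] (q : ℕ) (W : ℕ → 𝓞 k)
    (hW : ∃ h, 0 < h ∧ h < q ∧ W h ≠ 0) :
    ∃ (C₁ : ℝ) (w₁ : ℕ), 0 < C₁ ∧ ∀ w : ℕ, w₁ ≤ w → 4 ∣ w → ∃ X₀ : ℕ, ∀ N : ℕ, X₀ ≤ N →
    ∀ T : Finset ℕ, (∀ p ∈ T, p.Prime ∧ N < p ∧ p ≤ 2 * N ∧ BadW k q W w (w ^ 3) p) →
      ∑ p ∈ T, Real.log p ≤ C₁ / Real.sqrt w * N := by
  have hq1 : 1 ≤ q := by
    obtain ⟨h, h1, h2, -⟩ := hW
    omega
  have hWk : ∃ h, 0 < h ∧ h < q ∧ ((W h : 𝓞 k) : k) ≠ 0 := by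
    obtain ⟨h, h1, h2, h3⟩ := hW
    exact ⟨h, h1, h2, fun h0 => h3 (by exact_mod_cast h0)⟩
  obtain ⟨C₀, hC0, hS⟩ := mat_size (k := k) q hq1 W
  obtain ⟨C₂, hC2, hDs⟩ := den_size q hq1
  obtain ⟨w₂, hw2⟩ := ker_rat (F := k) q (fun h => ((W h : 𝓞 k) : k)) hWk
  obtain ⟨δ, hδ⟩ : ∃ δ : ℕ, δ = Module.finrank ℚ k := ⟨_, rfl⟩
  refine ⟨2048 * (1 + C₀ + C₂) * (δ + 1), max w₂ (64 * q + 26), by positivity, fun w hw' h4 => ?_⟩
  have hw : 64 * q + 26 ≤ w := (le_max_right _ _).trans hw'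
  obtain ⟨x₁, hx1⟩ := hw2 w ((le_max_left _ _).trans hw')
  refine ⟨x₁ * w ^ 4 + 2 * q * w ^ 2 + w ^ 4 + w ^ 3 + 2, fun N hN T hT => ?_⟩
  -- parameters
  obtain ⟨x, hx⟩ : ∃ x : ℕ, x = 32 * N / w ^ 4 + 1 := ⟨_, rfl⟩
  have hw4 : 0 < w ^ 4 := by
    have : 0 < w := by omega
    positivity
  have hxl : 32 * N ≤ w ^ 4 * x := by
    rw [hx]
    have := Nat.div_add_mod (32 * N) (w ^ 4)
    have h2 := Nat.mod_lt (32 * N) hw4
    rw [Nat.mul_add]
    omega
  have hxu : w ^ 4 * x ≤ 32 * N + w ^ 4 := by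
    rw [hx, Nat.mul_add, mul_one]
    have := Nat.mul_div_le (32 * N) (w ^ 4)
    omega
  have hxx1 : x₁ ≤ x := by
    have h1 : w ^ 4 * x₁ ≤ w ^ 4 * x := by
      have : x₁ * w ^ 4 ≤ N := by omega
      rw [mul_comm (w ^ 4) x₁]
      omega
    exact Nat.le_of_mul_le_mul_left h1 hw4
  have hx1' : 1 ≤ x := by
    rw [hx]
    exact Nat.le_add_left 1 _
  have hw26 : 26 ≤ w := by omega
  have hwR : (26 : ℝ) ≤ w := by exact_mod_cast hw26
  have hlog0 : 0 ≤ Real.log w := Real.log_nonneg (by linarith)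
  have hxR : (1 : ℝ) ≤ x := by exact_mod_cast hx1'
  -- the size
  have key := arithK (Mat q (fun h => ((W h : 𝓞 k) : k)) w x) (hx1 x hxx1) (Dn q w x)
    (den_pos q w x)
    (Real.exp ((C₀ + C₂) * w ^ 3 * (1 + Real.log w) * x)) ?_ (mat_int q W w x) ?_ T (2 * N) ?_
  · -- conclusion
    set S := ∑ p ∈ T, Real.log p with hSdef
    set L := 1 + Real.log w with hL
    have hL1 : 1 ≤ L := by linarith
    rw [Real.log_exp] at key
    have hcard := card_col_le q w x h4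
    set c : ℝ := (Fintype.card (Col q w x) : ℝ) with hc
    have hc0 : 0 ≤ c := by positivity
    have hf : Real.log ((Fintype.card (Col q w x)).factorial : ℝ) ≤ c * ((w : ℝ) ^ 3 * L * x) := by
      have h1 : ((Fintype.card (Col q w x)).factorial : ℝ) ≤ c ^ (Fintype.card (Col q w x)) := by
        rw [hc]
        exact_mod_cast Nat.factorial_le_pow _
      rcases Nat.eq_zero_or_pos (Fintype.card (Col q w x)) with h0 | h0
      · rw [h0]
        simp only [Nat.factorial_zero, Nat.cast_one, Real.log_one]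
        positivity
      have hc1 : 1 ≤ c := by
        rw [hc]
        exact_mod_cast h0
      have h2 : Real.log ((Fintype.card (Col q w x)).factorial : ℝ) ≤ c * Real.log c := by
        refine (Real.log_le_log (by exact_mod_cast Nat.factorial_pos _) h1).trans ?_
        rw [Real.log_pow]
      refine h2.trans (mul_le_mul_of_nonneg_left ?_ hc0)
      have h3 : Real.log c ≤ Real.log ((w : ℝ) ^ 4 * x) := by
        refine Real.log_le_log (by linarith) (hcard.trans ?_)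
        have : 0 ≤ (w : ℝ) ^ 4 * x := by positivity
        linarith
      rw [Real.log_mul (by positivity) (by positivity), Real.log_pow] at h3
      have h4' : Real.log x ≤ x := (Real.log_le_sub_one_of_pos (by linarith)).trans (by linarith)
      have h5 : Real.log w ≤ w := (Real.log_le_sub_one_of_pos (by linarith)).trans (by linarith)
      have h6 : (4 : ℝ) * w + x ≤ w ^ 3 * x := by
        have e1 : (1 : ℝ) ≤ w := by linarith
        have e2 : (5 : ℝ) * w ≤ w ^ 3 := by nlinarith [mul_nonneg (sub_nonneg.2 e1) (sub_nonneg.2 e1)]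
        have e3 : (5 : ℝ) * w * x ≤ w ^ 3 * x := mul_le_mul_of_nonneg_right e2 (by linarith)
        have e4 : (w : ℝ) ≤ w * x := by nlinarith
        have e5 : (x : ℝ) ≤ w * x := by nlinarith
        linarith
      have h7 : (w : ℝ) ^ 3 * x ≤ w ^ 3 * L * x := by
        have : 0 ≤ (w : ℝ) ^ 3 * x := by positivity
        nlinarith
      push_cast at h3
      linarith
    have h8 : (2 * (N : ℝ)) * S ≤ (δ + 1) * (c * ((w : ℝ) ^ 3 * L * x * (1 + C₀ + C₂))) := by
      have := key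
      rw [← hδ] at this
      push_cast at this
      have h20 : Real.log ((Fintype.card (Col q w x)).factorial : ℝ)
          + c * ((C₀ + C₂) * w ^ 3 * L * x) ≤ c * ((w : ℝ) ^ 3 * L * x * (1 + C₀ + C₂)) := by
        calc _ ≤ c * ((w : ℝ) ^ 3 * L * x) + c * ((C₀ + C₂) * w ^ 3 * L * x) := by gcongr
          _ = _ := by ring
      have h21 : 0 ≤ c * ((w : ℝ) ^ 3 * L * x * (1 + C₀ + C₂)) := by positivity
      calc (2 * (N : ℝ)) * S ≤ _ := this
        _ ≤ (δ : ℝ) * (c * ((w : ℝ) ^ 3 * L * x * (1 + C₀ + C₂))) :=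
            mul_le_mul_of_nonneg_left h20 (Nat.cast_nonneg _)
        _ ≤ _ := by nlinarith
    have hNpos : (0 : ℝ) < N := by
      have : 0 < N := by omega
      exact_mod_cast this
    have h9 : (w : ℝ) ^ 4 * x ≤ 64 * N := by
      have h10 : w ^ 4 * x ≤ 64 * N := by omega
      exact_mod_cast h10
    have hwpos : (0 : ℝ) < w := by linarith
    have h11 : c * ((w : ℝ) ^ 3 * L * x * (1 + C₀ + C₂)) ≤ 2048 * N ^ 2 * L / w * (1 + C₀ + C₂) := by
      have h12 : c * ((w : ℝ) ^ 3 * L * x) ≤ 2048 * N ^ 2 * L / w := by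
        rw [le_div_iff₀ hwpos]
        calc c * ((w : ℝ) ^ 3 * L * x) * w ≤ ((w : ℝ) ^ 4 * x / 2) * ((w : ℝ) ^ 3 * L * x) * w := by
              gcongr
          _ = ((w : ℝ) ^ 4 * x) ^ 2 / 2 * L := by ring
          _ ≤ (64 * (N : ℝ)) ^ 2 / 2 * L := by gcongr
          _ = 2048 * (N : ℝ) ^ 2 * L := by ring
      calc c * ((w : ℝ) ^ 3 * L * x * (1 + C₀ + C₂)) = c * ((w : ℝ) ^ 3 * L * x) * (1 + C₀ + C₂) := by
            ring
        _ ≤ _ := mul_le_mul_of_nonneg_right h12 (by positivity)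
    have hsq : Real.sqrt w ^ 2 = w := Real.sq_sqrt hwpos.le
    have hspos : 0 < Real.sqrt w := Real.sqrt_pos.2 hwpos
    have h13 : L ≤ 2 * Real.sqrt w := by
      have h14 : Real.log w = 2 * Real.log (Real.sqrt w) := by
        rw [Real.log_sqrt hwpos.le]
        ring
      have h15 := Real.log_le_sub_one_of_pos hspos
      rw [hL, h14]
      linarith
    have h16 : (2 * (N : ℝ)) * S ≤
        (2 * (N : ℝ)) * (2048 * (1 + C₀ + C₂) * (δ + 1) / Real.sqrt w * N) := by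
      refine (h8.trans (mul_le_mul_of_nonneg_left h11 (by positivity))).trans ?_
      have h17 : L / w ≤ 2 / Real.sqrt w := by
        rw [div_le_div_iff₀ hwpos hspos]
        calc L * Real.sqrt w ≤ 2 * Real.sqrt w * Real.sqrt w := by gcongr
          _ = 2 * w := by rw [mul_assoc, ← sq, hsq]
      calc ((δ : ℝ) + 1) * (2048 * (N : ℝ) ^ 2 * L / w * (1 + C₀ + C₂))
          = 2048 * (N : ℝ) ^ 2 * (1 + C₀ + C₂) * (δ + 1) * (L / w) := by ring
        _ ≤ 2048 * (N : ℝ) ^ 2 * (1 + C₀ + C₂) * (δ + 1) * (2 / Real.sqrt w) := by gcongr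
        _ = (2 * (N : ℝ)) * (2048 * (1 + C₀ + C₂) * (δ + 1) / Real.sqrt w * N) := by ring
    exact le_of_mul_le_mul_left h16 (by linarith)
  · refine Real.one_le_exp ?_
    positivity
  · intro r c σ
    have h1 := hS w (by omega) x hx1' r c σ
    have h2 := hDs w (by omega) x hx1'
    have hDpos : 0 < (Dn q w x : ℝ) := by exact_mod_cast den_pos q w x
    have h3 : (Dn q w x : ℝ) ≤ Real.exp (C₂ * w ^ 3 * (1 + Real.log w) * x) := by
      rw [← Real.log_le_iff_le_exp hDpos]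
      exact h2
    calc (Dn q w x : ℝ) * ‖σ (Mat q (fun h => ((W h : 𝓞 k) : k)) w x r c)‖
        ≤ Real.exp (C₂ * w ^ 3 * (1 + Real.log w) * x) *
          Real.exp (C₀ * w ^ 3 * (1 + Real.log w) * x) := by gcongr
      _ = Real.exp ((C₀ + C₂) * w ^ 3 * (1 + Real.log w) * x) := by
          rw [← Real.exp_add]
          congr 1
          ring
  · intro p hp
    obtain ⟨hpp, hpN, hp2, Ω, iF, iC, φ, Lam, hLam, hE⟩ := hT p hp
    have hfact : Fact p.Prime := ⟨hpp⟩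
    have hb1 : q * w * (w * x) < p := by
      have h1 : w ^ 2 * (q * w * (w * x)) = q * (w ^ 4 * x) := by ring
      have h2 : w ^ 2 * (q * w * (w * x)) ≤ q * (32 * N + w ^ 4) := by
        rw [h1]
        exact Nat.mul_le_mul_left _ hxu
      have h3 : q * (32 * N + w ^ 4) ≤ w ^ 2 * N := by
        have h4 : 64 * q ≤ w ^ 2 := by nlinarith
        have h5 : 2 * q * w ^ 2 ≤ N := by omega
        have h6 : q * w ^ 4 = q * w ^ 2 * w ^ 2 := by ring
        have h7 : q * (32 * N + w ^ 4) = 32 * q * N + q * w ^ 2 * w ^ 2 := by rw [← h6]; ring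
        rw [h7]
        nlinarith
      have h4 : q * w * (w * x) ≤ N := Nat.le_of_mul_le_mul_left (h2.trans h3)
        (by have : 0 < w := by omega
            positivity)
      omega
    have hb2 : x < p := by
      have : x ≤ q * w * (w * x) := by
        have h1 : 1 ≤ q * w * w := by
          have h2 : 1 ≤ w := by omega
          exact Nat.succ_le_of_lt (by positivity)
        calc x = 1 * x := (one_mul x).symm
          _ ≤ q * w * w * x := Nat.mul_le_mul_right _ h1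
          _ = _ := by ring
      omega
    refine ⟨hpp, den_prime q w x p hpp hb1 hb2, Ω, iF, iC, φ, Mat q (fun h => φ (W h)) w x,
      mat_red φ p q W w x hb1 hb2, ?_⟩
    have hk := ker_mod p q hq1 (fun h => φ (W h)) Lam hLam w x (by omega) hb1 hb2 (by omega) hE
    have hk2 := kappa_ge q w x N h4 (by omega) hxl
    omega

private theorem gap_aux (E : ℕ → Prop) [DecidablePred E] (ε : ℝ) (hε : 0 < ε) (X₀ : ℕ)
    (h : ∀ N : ℕ, X₀ ≤ N → ∀ T : Finset ℕ, (∀ p ∈ T, p.Prime ∧ N < p ∧ p ≤ 2 * N ∧ E p) →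
      ∑ p ∈ T, Real.log p ≤ ε / 4 * N) :
    ∃ X₁ : ℕ, ∀ X : ℕ, X₁ ≤ X →
      ∑ p ∈ (Icc 1 X).filter (fun p => p.Prime ∧ E p), Real.log p ≤ ε * X := by
  set F : ℕ → ℝ := fun X => ∑ p ∈ (Icc 1 X).filter (fun p => p.Prime ∧ E p), Real.log p with hF
  have hmono : ∀ X Y : ℕ, X ≤ Y → F X ≤ F Y := by
    intro X Y hXY
    refine Finset.sum_le_sum_of_subset_of_nonneg ?_ fun p _ _ => Real.log_natCast_nonneg p
    intro p hp
    rw [mem_filter, mem_Icc] at hp ⊢
    exact ⟨⟨hp.1.1, hp.1.2.trans hXY⟩, hp.2⟩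
  set B := 2 * X₀ + 3 with hB
  have hF0 : 0 ≤ F B := Finset.sum_nonneg fun p _ => Real.log_natCast_nonneg p
  have main : ∀ X : ℕ, F X ≤ F B + ε / 2 * X := by
    intro X
    induction X using Nat.strong_induction_on with
    | _ X ih =>
      rcases Nat.lt_or_ge X B with hX | hX
      · have h1 := hmono X B hX.le
        have h2 : 0 ≤ ε / 2 * (X : ℝ) := by positivity
        linarith
      · obtain ⟨N, hN⟩ : ∃ N : ℕ, N = (X + 1) / 2 := ⟨_, rfl⟩
        have hNX : N < X := by omega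
        have hX2 : X ≤ 2 * N := by omega
        have h3 := ih N hNX
        have h4 := h N (by omega) (((Icc 1 X).filter (fun p => p.Prime ∧ E p)).filter
          (fun p => N < p)) (by
            intro p hp
            rw [mem_filter, mem_filter, mem_Icc] at hp
            exact ⟨hp.1.2.1, hp.2, by omega, hp.1.2.2⟩)
        have h5 : F X = ∑ p ∈ ((Icc 1 X).filter (fun p => p.Prime ∧ E p)).filter (fun p => N < p),
            Real.log p + ∑ p ∈ ((Icc 1 X).filter (fun p => p.Prime ∧ E p)).filter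
              (fun p => ¬ N < p), Real.log p := (Finset.sum_filter_add_sum_filter_not _ _ _).symm
        have h6 : ∑ p ∈ ((Icc 1 X).filter (fun p => p.Prime ∧ E p)).filter
              (fun p => ¬ N < p), Real.log p ≤ F N := by
          refine Finset.sum_le_sum_of_subset_of_nonneg ?_ fun p _ _ => Real.log_natCast_nonneg p
          intro p hp
          rw [mem_filter, mem_filter, mem_Icc] at hp
          rw [mem_filter, mem_Icc]
          exact ⟨⟨hp.1.1.1, by omega⟩, hp.1.2⟩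
        have h7 : (N : ℝ) ≤ 2 / 3 * X := by
          have : 3 * N ≤ 2 * X := by omega
          have h8 : (3 : ℝ) * N ≤ 2 * X := by exact_mod_cast this
          linarith
        have h9 : ε / 2 * (N : ℝ) + ε / 4 * N ≤ ε / 2 * X := by nlinarith
        linarith
  refine ⟨⌈2 * F B / ε⌉₊, fun X hX => ?_⟩
  have h1 := main X
  have h2 : 2 * F B / ε ≤ X := (Nat.le_ceil _).trans (by exact_mod_cast hX)
  rw [div_le_iff₀ hε] at h2
  have h3 : F X ≤ ε * X := by nlinarith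
  exact h3

open Classical in
/-- **The gap theorem with weights.** -/
theorem gapW (k : Type*) [Field k] [NumberField k] (q : ℕ) (W : ℕ → 𝓞 k)
    (hW : ∃ h, 0 < h ∧ h < q ∧ W h ≠ 0) (ε : ℝ) (hε : 0 < ε) : ∃ w₀ : ℕ, ∀ w : ℕ, w₀ ≤ w →
    ∃ X₀ : ℕ, ∀ X : ℕ, X₀ ≤ X →
    ∑ p ∈ (Finset.Icc 1 X).filter (fun p : ℕ => p.Prime ∧ BadW k q W w (w ^ 4) p), Real.log p
      ≤ ε * X := by
  obtain ⟨C₁, w₁, hC1, hB⟩ := thmB k q W hW
  obtain ⟨M, hM⟩ := exists_nat_ge ((4 * C₁ / ε) ^ 2)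
  refine ⟨max (max w₁ M) 5, fun w hw => ?_⟩
  have hw5 : 5 ≤ w := (le_max_right _ _).trans hw
  have hwM : M ≤ w := (le_max_right _ _).trans ((le_max_left _ _).trans hw)
  have hw1 : w₁ ≤ w := (le_max_left _ _).trans ((le_max_left _ _).trans hw)
  obtain ⟨v, hv⟩ : ∃ v : ℕ, v = 4 * ((w + 3) / 4) := ⟨_, rfl⟩
  have hv4 : 4 ∣ v := ⟨_, hv⟩
  have hwv : w ≤ v := by omega
  have hvw : v ≤ w + 3 := by omega
  obtain ⟨X₀, hX0⟩ := hB v (hw1.trans hwv) hv4
  have hvpow : v ^ 3 ≤ w ^ 4 := by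
    have h1 : v ^ 3 ≤ (w + 3) ^ 3 := Nat.pow_le_pow_left hvw 3
    have h2 : (w + 3) ^ 3 ≤ w ^ 4 := by
      obtain ⟨u, rfl⟩ : ∃ u, w = u + 5 := ⟨w - 5, by omega⟩
      have e1 : (u + 5 + 3) ^ 3 = u ^ 3 + 24 * u ^ 2 + 192 * u + 512 := by ring
      have e2 : (u + 5) ^ 4 = u ^ 4 + 20 * u ^ 3 + 150 * u ^ 2 + 500 * u + 625 := by ring
      rw [e1, e2]
      omega
    exact h1.trans h2
  have hvR : ((4 * C₁ / ε) ^ 2 : ℝ) ≤ v := by
    refine hM.trans ?_
    exact_mod_cast hwM.trans hwv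
  have hsqrt : C₁ / Real.sqrt v ≤ ε / 4 := by
    have h1 : 4 * C₁ / ε ≤ Real.sqrt v := by
      rw [← Real.sqrt_sq (show 0 ≤ 4 * C₁ / ε by positivity)]
      exact Real.sqrt_le_sqrt hvR
    have h2 : 0 < 4 * C₁ / ε := by positivity
    calc C₁ / Real.sqrt v ≤ C₁ / (4 * C₁ / ε) := div_le_div_of_nonneg_left hC1.le h2 h1
      _ = ε / 4 := by
        field_simp
  obtain ⟨X₁, hX1⟩ := gap_aux (fun p => BadW k q W w (w ^ 4) p) ε hε X₀ (by
    intro N hN T hT
    refine (hX0 N hN T fun p hp => ?_).trans ?_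
    · obtain ⟨h1, h2, h3, Ω, iF, iC, φ, Lam, hLam, hE⟩ := hT p hp
      exact ⟨h1, h2, h3, Ω, iF, iC, φ, Lam, hLam, fun j h5 h6 =>
        hE j (by omega) (lt_of_lt_of_le h6 hvpow)⟩
    · exact mul_le_mul_of_nonneg_right hsqrt (Nat.cast_nonneg N))
  exact ⟨X₁, hX1⟩

end H22GW
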