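import Mathlib

/-!
# GW CorankI: corank lemma for a maximal ideal of a commutative ring.
PROOF. `𝔽 = R/I`. Columns: choose `U ∈ GL(𝔽)` whose first `κ` columns are in the kernel of `M mod I`, lift
to a matrix `U'` over `R`, `det U' ∉ I`; `κ` columns of `M U'` have entries in `I`, so
`det M det U' ∈ I^κ`; `I` maximal: `I + (det U') = 1`, so `I^κ + (det U') = 1` and `det M ∈ I^κ`.
-/

namespace H22GW

/-- if the columns in `S` have their entries in `I`, the determinant is in `I^|S|` -/
private theorem det_mem_pow {ι : Type*} [Fintype ι] [DecidableEq ι] {R : Type*} [CommRing R]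
    (I : Ideal R) (A : Matrix ι ι R) (S : Finset ι) (h : ∀ j ∈ S, ∀ i, A i j ∈ I) :
    A.det ∈ I ^ S.card := by
  rw [Matrix.det_apply]
  refine Ideal.sum_mem _ fun σ _ => ?_
  have h1 : ∏ i, A (σ i) i ∈ I ^ S.card := by
    rw [← Finset.prod_sdiff (Finset.subset_univ S)]
    refine Ideal.mul_mem_left _ _ ?_
    have h2 : ∏ i ∈ S, A (σ i) i ∈ ∏ _i ∈ S, I := Ideal.prod_mem_prod fun i hi => h i hi _
    rwa [Finset.prod_const] at h2
  rcases Int.units_eq_one_or (Equiv.Perm.sign σ) with hs | hs
  · rw [hs, one_smul]; exact h1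
  · rw [hs, Units.neg_smul, one_smul]; exact (Ideal.neg_mem_iff _).2 h1

/-- a basis of the space whose members in an index set of the right size are in the submodule -/
private theorem exists_basis {ι : Type*} [Fintype ι] [DecidableEq ι] {𝔽 : Type*} [Field 𝔽]
    (K : Submodule 𝔽 (ι → 𝔽)) : ∃ (b : Module.Basis ι 𝔽 (ι → 𝔽)) (S : Finset ι),
      S.card = Module.finrank 𝔽 K ∧ ∀ j ∈ S, b j ∈ K := by
  obtain ⟨K', hK'⟩ := K.exists_isCompl
  let b0 := ((Module.finBasis 𝔽 K).prod (Module.finBasis 𝔽 K')).map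
    (Submodule.prodEquivOfIsCompl K K' hK')
  have hcard : Fintype.card (Fin (Module.finrank 𝔽 K) ⊕ Fin (Module.finrank 𝔽 K'))
      = Fintype.card ι := by
    rw [← Module.finrank_eq_card_basis b0, Module.finrank_pi]
  let e := Fintype.equivOfCardEq hcard
  refine ⟨b0.reindex e, Finset.univ.map ⟨fun i => e (Sum.inl i), fun i j hij => by
    simpa using hij⟩, by simp, ?_⟩
  intro j hj
  simp only [Finset.mem_map, Finset.mem_univ, Function.Embedding.coeFn_mk, true_and] at hj
  obtain ⟨i, rfl⟩ := hj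
  rw [Module.Basis.reindex_apply, Equiv.symm_apply_apply]
  simp [b0]

theorem corank_ideal {ι : Type*} [Fintype ι] [DecidableEq ι] {R : Type*} [CommRing R] (I : Ideal R)
    [hI : I.IsMaximal] {𝔽 : Type*} [Field 𝔽] (φ : R →+* 𝔽) (hφ : Function.Surjective φ)
    (hk : RingHom.ker φ = I) (M : Matrix ι ι R) (κ : ℕ)
    (h : κ ≤ Module.finrank 𝔽 (LinearMap.ker (M.map φ).mulVecLin)) :
    M.det ∈ I ^ κ := by
  obtain ⟨b, S, hS, hb⟩ := exists_basis (LinearMap.ker (M.map φ).mulVecLin)
  choose g hg using hφ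
  let U : Matrix ι ι R := Matrix.of fun i j => g (b j i)
  have hU : U.map φ = (Pi.basisFun 𝔽 ι).toMatrix b := by
    ext i j
    simp [U, hg, Module.Basis.toMatrix_apply]
  have hdU : φ U.det ≠ 0 := by
    rw [RingHom.map_det, RingHom.mapMatrix_apply, hU]
    have := (Pi.basisFun 𝔽 ι).isUnit_det b
    rw [Module.Basis.det_apply] at this
    exact this.ne_zero
  have hmem : M.det * U.det ∈ I ^ κ := by
    rw [← Matrix.det_mul]
    have h1 : (M * U).det ∈ I ^ S.card := by
      refine det_mem_pow I _ S fun j hj i => ?_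
      rw [← hk, RingHom.mem_ker]
      have h2 := hb j hj
      rw [LinearMap.mem_ker, Matrix.mulVecLin_apply] at h2
      have h3 := congrFun h2 i
      rw [Matrix.mul_apply, map_sum]
      simp only [Matrix.mulVec, dotProduct, Matrix.map_apply, Pi.zero_apply] at h3
      rw [← h3]
      refine Finset.sum_congr rfl fun l _ => ?_
      rw [map_mul]
      simp [U, hg]
    exact Ideal.pow_le_pow_right (h.trans hS.ge) h1
  have hcop : IsCoprime (Ideal.span {U.det}) I := by
    rw [Ideal.isCoprime_iff_sup_eq]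
    refine hI.out.2 _ ?_
    rw [right_lt_sup]
    intro hle
    apply hdU
    have : U.det ∈ I := hle (Ideal.mem_span_singleton_self _)
    rwa [← hk, RingHom.mem_ker] at this
  have hcop2 : IsCoprime (Ideal.span {U.det}) (I ^ κ) := hcop.pow_right
  obtain ⟨u, hu, v, hv, huv⟩ := Ideal.isCoprime_iff_exists.1 hcop2
  obtain ⟨c, rfl⟩ := Ideal.mem_span_singleton'.1 hu
  have : M.det = c * (M.det * U.det) + M.det * v := by
    calc M.det = M.det * (c * U.det + v) := by rw [huv, mul_one]
      _ = _ := by ring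
  rw [this]
  exact Ideal.add_mem _ (Ideal.mul_mem_left _ _ hmem) (Ideal.mul_mem_left _ _ hv)

end H22GW
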