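import Pool.Agent.H22.GW.Defs
import Pool.Agent.H22.GW.CorankI

/-!
# GW ArithK.
PROOF. As H22OD.arith: a maximal nonzero minor `Δ ∈ 𝓞 k` of `D A`; `|σ Δ| ≤ N! T^N` for all `σ`, so
`|Norm Δ| ≤ (N! T^N)^[k:ℚ]`. For `p ∈ S`, `φ : 𝓞 k → Ω`, `I = ker φ` is maximal (it contains `p`, `I ≠ ⊥`),
`𝔽 = φ(𝓞 k) ⊆ Ω` a subfield; the reduction of `D A(f ·,·)` has its entries in `𝔽`, the dimension of its
kernel over `𝔽` is the one over `Ω`: `Δ ∈ I^κ` (`corank_ideal`), `Norm I = p^f`, `p^κ ∣ Norm Δ`
(`Ideal.absNorm`).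
-/

namespace H22GW

open NumberField

theorem exists_minorK {k : Type*} [Field k] {R N : Type*} [Fintype R] [DecidableEq R] [Fintype N]
    [DecidableEq N] (A : Matrix R N k) (h : ∀ v : N → k, A.mulVec v = 0 → v = 0) :
    ∃ f : N → R, (A.submatrix f id).det ≠ 0 := by
  classical
  have hrank : A.rank = Fintype.card N := by
    unfold Matrix.rank
    have hinj : Function.Injective A.mulVecLin := by
      rw [← LinearMap.ker_eq_bot, LinearMap.ker_eq_bot']
      intro v hv
      exact h v hv
    rw [LinearMap.finrank_range_of_inj hinj, Module.finrank_fintype_fun_eq_card]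
  rw [Matrix.rank_eq_finrank_span_row] at hrank
  have htop : Submodule.span k (Set.range A.row) = ⊤ := by
    apply Submodule.eq_top_of_finrank_eq
    rw [hrank, Module.finrank_fintype_fun_eq_card]
  obtain ⟨b, hb, hbs, hbi⟩ := exists_linearIndependent k (Set.range A.row)
  have hfin : b.Finite := (Set.finite_range A.row).subset hb
  have : Fintype b := hfin.fintype
  have hspan : (⊤ : Submodule k (N → k)) ≤ Submodule.span k (Set.range ((↑) : b → (N → k))) := by
    rw [Subtype.range_coe, hbs, htop]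
  let B := Module.Basis.mk hbi hspan
  have hcard : Fintype.card N = Fintype.card b := by
    have := Module.finrank_eq_card_basis B
    rw [Module.finrank_fintype_fun_eq_card] at this
    exact this
  let e : N ≃ b := Fintype.equivOfCardEq hcard
  choose g hg using fun x : b => hb x.2
  refine ⟨fun i => g (e i), ?_⟩
  have hli : LinearIndependent k (A.submatrix (fun i => g (e i)) id).row := by
    have h1 : (A.submatrix (fun i => g (e i)) id).row = (fun x : b => (x : N → k)) ∘ e := by
      ext i j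
      have := congrFun (hg (e i)) j
      simpa [Matrix.row] using this
    rw [h1]
    exact hbi.comp e e.injective
  rw [Matrix.linearIndependent_rows_iff_isUnit, Matrix.isUnit_iff_isUnit_det] at hli
  exact hli.ne_zero

/-- the rank is invariant under field extensions -/
theorem rank_map_field {K L ι : Type*} [Field K] [Field L] [Fintype ι] [DecidableEq ι]
    (ψ : K →+* L) (M : Matrix ι ι K) : (M.map ψ).rank = M.rank := by
  classical
  obtain ⟨L₁, L₂, D, hM⟩ := Matrix.Pivot.exists_list_transvec_mul_diagonal_mul_list_transvec M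
  set P := (L₁.map Matrix.TransvectionStruct.toMatrix).prod with hP
  set Q := (L₂.map Matrix.TransvectionStruct.toMatrix).prod with hQ
  have hP1 : P.det = 1 := Matrix.TransvectionStruct.det_toMatrix_prod L₁
  have hQ1 : Q.det = 1 := Matrix.TransvectionStruct.det_toMatrix_prod L₂
  have hPu : IsUnit P.det := by rw [hP1]; exact isUnit_one
  have hQu : IsUnit Q.det := by rw [hQ1]; exact isUnit_one
  have hPu' : IsUnit (P.map ψ).det := by
    have : (P.map ψ).det = ψ P.det := (RingHom.map_det ψ P).symm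
    rw [this, hP1, map_one]; exact isUnit_one
  have hQu' : IsUnit (Q.map ψ).det := by
    have : (Q.map ψ).det = ψ Q.det := (RingHom.map_det ψ Q).symm
    rw [this, hQ1, map_one]; exact isUnit_one
  have hM' : M.map ψ = P.map ψ * Matrix.diagonal (fun i => ψ (D i)) * Q.map ψ := by
    rw [hM, Matrix.map_mul, Matrix.map_mul, Matrix.diagonal_map (map_zero ψ)]
  rw [hM', Matrix.rank_mul_eq_left_of_isUnit_det _ _ hQu',
    Matrix.rank_mul_eq_right_of_isUnit_det _ _ hPu', Matrix.rank_diagonal]
  conv_rhs => rw [hM, Matrix.rank_mul_eq_left_of_isUnit_det _ _ hQu,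
    Matrix.rank_mul_eq_right_of_isUnit_det _ _ hPu, Matrix.rank_diagonal]
  apply Fintype.card_congr
  exact Equiv.subtypeEquivRight fun i => not_congr (map_eq_zero ψ)

theorem finrank_ker_eq {K ι : Type*} [Field K] [Fintype ι] [DecidableEq ι] (M : Matrix ι ι K) :
    M.rank + Module.finrank K (LinearMap.ker M.mulVecLin) = Fintype.card ι := by
  have := LinearMap.finrank_range_add_finrank_ker M.mulVecLin
  rwa [Module.finrank_fintype_fun_eq_card] at this

/-- the local divisibility -/
theorem arithK_local {k : Type*} [Field k] [NumberField k] {N : Type*} [Fintype N]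
    [DecidableEq N] (M : Matrix N N (𝓞 k)) (p κ : ℕ) (hp : p.Prime) {Ω : Type*} [Field Ω]
    [CharP Ω p] (φ : 𝓞 k →+* Ω)
    (hκ : κ ≤ Module.finrank Ω (LinearMap.ker (M.map φ).mulVecLin)) :
    p ^ κ ∣ Ideal.absNorm (Ideal.span {M.det}) := by
  classical
  set I : Ideal (𝓞 k) := RingHom.ker φ with hI
  have hpI : (p : 𝓞 k) ∈ I := by
    rw [hI, RingHom.mem_ker, map_natCast, CharP.cast_eq_zero]
  have hIne : I ≠ ⊥ := by
    intro h
    rw [h, Ideal.mem_bot] at hpI
    have : p = 0 := by exact_mod_cast hpI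
    exact hp.ne_zero this
  have hprime : I.IsPrime := RingHom.ker_isPrime φ
  have hmax : I.IsMaximal := hprime.isMaximal hIne
  let _ : Field (𝓞 k ⧸ I) := Ideal.Quotient.field I
  have hmem : M.det ∈ I ^ κ := by
    apply corank_ideal I (Ideal.Quotient.mk I) Ideal.Quotient.mk_surjective Ideal.mk_ker M κ
    refine hκ.trans ?_
    have e : M.map φ = (M.map (Ideal.Quotient.mk I)).map (RingHom.kerLift φ) := by
      ext i j
      rfl
    have h1 := finrank_ker_eq (M.map φ)
    have h2 := finrank_ker_eq (M.map (Ideal.Quotient.mk I))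
    have h3 := rank_map_field (RingHom.kerLift φ) (M.map (Ideal.Quotient.mk I))
    rw [← e] at h3
    omega
  have h1 : Ideal.absNorm I ^ κ ∣ Ideal.absNorm (Ideal.span {M.det}) := by
    rw [← map_pow]
    apply Ideal.absNorm_dvd_absNorm_of_le
    rw [Ideal.span_singleton_le_iff_mem]
    exact hmem
  refine (pow_dvd_pow_of_dvd ?_ κ).trans h1
  -- `p` divides the norm of `I`
  have h2 : Ideal.absNorm I ∣ p ^ Module.finrank ℤ (𝓞 k) := by
    rw [← Ideal.absNorm_span_natCast]
    apply Ideal.absNorm_dvd_absNorm_of_le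
    rw [Ideal.span_singleton_le_iff_mem]
    exact hpI
  obtain ⟨j, -, hj⟩ := (Nat.dvd_prime_pow hp).mp h2
  rw [hj]
  cases j with
  | zero =>
    exfalso
    rw [pow_zero, Ideal.absNorm_eq_one_iff] at hj
    exact hprime.ne_top hj
  | succ j => exact dvd_pow_self p (Nat.succ_ne_zero j)

theorem arithK {k : Type*} [Field k] [NumberField k] {R N : Type*} [Fintype R] [DecidableEq R]
    [Fintype N] [DecidableEq N]
    (A : Matrix R N k) (h : ∀ v : N → k, A.mulVec v = 0 → v = 0) (D : ℕ) (hD : 0 < D) (T : ℝ)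
    (hT : 1 ≤ T) (hI : ∀ r c, IsIntegral ℤ ((D : k) * A r c))
    (hs : ∀ r c (σ : k →+* ℂ), (D : ℝ) * ‖σ (A r c)‖ ≤ T) (S : Finset ℕ) (κ : ℕ)
    (hS : ∀ p ∈ S, p.Prime ∧ ¬ p ∣ D ∧ ∃ (Ω : Type) (_ : Field Ω) (_ : CharP Ω p) (φ : 𝓞 k →+* Ω)
      (B : Matrix R N Ω), (∀ r c, RedK φ (A r c) (B r c)) ∧
      κ ≤ Module.finrank Ω (LinearMap.ker B.mulVecLin)) :
    (κ : ℝ) * ∑ p ∈ S, Real.log p ≤ (Module.finrank ℚ k : ℝ) *
      (Real.log ((Fintype.card N).factorial : ℝ) + Fintype.card N * Real.log T) := by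
  classical
  obtain ⟨f, hf⟩ := exists_minorK A h
  -- the integral matrix
  let a : R → N → 𝓞 k := fun r c => ⟨(D : k) * A r c, hI r c⟩
  have ha : ∀ r c, ((a r c : 𝓞 k) : k) = (D : k) * A r c := fun r c => rfl
  set M : Matrix N N (𝓞 k) := Matrix.of fun i j => a (f i) j with hM
  have hMmap : M.map (algebraMap (𝓞 k) k) = (D : k) • A.submatrix f id := by
    ext i j
    simp only [Matrix.map_apply, hM, Matrix.of_apply, Matrix.smul_apply, Matrix.submatrix_apply,
      id_eq, smul_eq_mul]
    exact ha _ _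
  have hDk : (D : k) ≠ 0 := by exact_mod_cast hD.ne'
  have hdet : algebraMap (𝓞 k) k M.det ≠ 0 := by
    rw [RingHom.map_det]
    change (M.map (algebraMap (𝓞 k) k)).det ≠ 0
    rw [hMmap, Matrix.det_smul]
    exact mul_ne_zero (pow_ne_zero _ hDk) hf
  have hdet0 : M.det ≠ 0 := by
    intro h0
    rw [h0, map_zero] at hdet
    exact hdet rfl
  set Nn : ℕ := Ideal.absNorm (Ideal.span {M.det}) with hNn
  have hNn' : Nn = (Algebra.norm ℤ M.det).natAbs := Ideal.absNorm_span_singleton _
  have hNn0 : Nn ≠ 0 := by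
    rw [hNn', Int.natAbs_ne_zero]
    exact Algebra.norm_ne_zero_iff.mpr hdet0
  -- divisibility
  have hdvd : ∀ p ∈ S, p ^ κ ∣ Nn := by
    intro p hp
    obtain ⟨hpp, hpD, Ω, hΩ, hchar, φ, B, hB, hκ⟩ := hS p hp
    have : Fact p.Prime := ⟨hpp⟩
    apply arithK_local M p κ hpp φ
    refine hκ.trans ?_
    have hent : ∀ r c, φ (a r c) = (D : Ω) * B r c := by
      intro r c
      obtain ⟨n, α, hn, h1, h2⟩ := hB r c
      have h3 : (n : 𝓞 k) * a r c = (D : 𝓞 k) * α := by
        apply RingOfIntegers.coe_injective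
        rw [map_mul, map_mul, map_natCast, map_natCast]
        change (n : k) * ((D : k) * A r c) = (D : k) * (α : k)
        rw [← h1]
        ring
      have h4 := congrArg φ h3
      rw [map_mul, map_mul, map_natCast, map_natCast, h2] at h4
      exact mul_left_cancel₀ hn (by rw [h4]; ring)
    apply Submodule.finrank_mono
    intro v hv
    rw [LinearMap.mem_ker, Matrix.mulVecLin_apply] at hv ⊢
    ext i
    have h5 := congrFun hv (f i)
    simp only [Matrix.mulVec, dotProduct, Pi.zero_apply, Matrix.map_apply] at h5 ⊢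
    have h6 : ∀ j, φ (M i j) * v j = (D : Ω) * (B (f i) j * v j) := by
      intro j
      rw [hM, Matrix.of_apply, hent]
      ring
    rw [Finset.sum_congr rfl fun j _ => h6 j, ← Finset.mul_sum, h5, mul_zero]
  have hprod : ∏ p ∈ S, p ^ κ ∣ Nn := by
    apply Finset.prod_dvd_of_isRelPrime
    · intro p hp q hq hpq
      rw [Function.onFun, ← Nat.coprime_iff_isRelPrime]
      exact Nat.Coprime.pow κ κ ((Nat.coprime_primes (hS p hp).1 (hS q hq).1).mpr hpq)
    · exact hdvd
  have hlow : (κ : ℝ) * ∑ p ∈ S, Real.log p ≤ Real.log Nn := by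
    have h1 : ((∏ p ∈ S, p ^ κ : ℕ) : ℝ) ≤ (Nn : ℝ) := by
      exact_mod_cast Nat.le_of_dvd (Nat.pos_of_ne_zero hNn0) hprod
    have h2 : Real.log ((∏ p ∈ S, p ^ κ : ℕ) : ℝ) = (κ : ℝ) * ∑ p ∈ S, Real.log p := by
      push_cast
      rw [Real.log_prod, Finset.mul_sum]
      · refine Finset.sum_congr rfl fun p _ => ?_
        rw [Real.log_pow]
      · intro p hp
        have : (p : ℝ) ≠ 0 := by exact_mod_cast (hS p hp).1.ne_zero
        exact pow_ne_zero _ this
    rw [← h2]
    apply Real.log_le_log _ h1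
    have : 0 < ∏ p ∈ S, p ^ κ := Finset.prod_pos fun p hp => pow_pos (hS p hp).1.pos _
    exact_mod_cast this
  refine hlow.trans ?_
  -- the upper bound
  have hT0 : (0 : ℝ) < T := by linarith
  have hbound : ∀ σ : k →+* ℂ, ‖σ (algebraMap (𝓞 k) k M.det)‖ ≤
      (Fintype.card N).factorial * T ^ Fintype.card N := by
    intro σ
    have e1 : σ (algebraMap (𝓞 k) k M.det) =
        ((M.map (algebraMap (𝓞 k) k)).map σ).det := by
      rw [RingHom.map_det, RingHom.map_det]
      rfl
    rw [e1]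
    have h1 := Matrix.det_le (A := (M.map (algebraMap (𝓞 k) k)).map σ)
      (abv := NormedField.toAbsoluteValue ℂ) (x := T) (fun i j => by
        change ‖σ ((D : k) * A (f i) j)‖ ≤ T
        rw [map_mul, map_natCast, norm_mul, Complex.norm_natCast]
        exact hs (f i) j σ)
    rw [nsmul_eq_mul] at h1
    exact h1
  have hnorm : (Nn : ℝ) ≤ ((Fintype.card N).factorial * T ^ Fintype.card N) ^
      Module.finrank ℚ k := by
    have e1 : (Nn : ℝ) = ‖((Algebra.norm ℚ (algebraMap (𝓞 k) k M.det) : ℚ) : ℂ)‖ := by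
      have e2 : Algebra.norm ℚ (algebraMap (𝓞 k) k M.det) = ((Algebra.norm ℤ M.det : ℤ) : ℚ) :=
        (Algebra.coe_norm_int M.det).symm
      rw [e2, hNn', Rat.cast_intCast, Complex.norm_intCast, Nat.cast_natAbs, Int.cast_abs]
    have e3 : ((Algebra.norm ℚ (algebraMap (𝓞 k) k M.det) : ℚ) : ℂ) =
        ∏ σ : k →ₐ[ℚ] ℂ, σ (algebraMap (𝓞 k) k M.det) := by
      have := Algebra.norm_eq_prod_embeddings ℚ ℂ (algebraMap (𝓞 k) k M.det)
      rw [← this]
      rfl
    rw [e1, e3, norm_prod]
    have hc : Fintype.card (k →ₐ[ℚ] ℂ) = Module.finrank ℚ k := AlgHom.card ℚ k ℂ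
    have e4 : ((Fintype.card N).factorial * T ^ Fintype.card N : ℝ) ^ Module.finrank ℚ k =
        ∏ _σ : k →ₐ[ℚ] ℂ, ((Fintype.card N).factorial * T ^ Fintype.card N : ℝ) := by
      rw [Finset.prod_const, Finset.card_univ, hc]
    rw [e4]
    apply Finset.prod_le_prod
    · intro σ _
      exact norm_nonneg _
    · intro σ _
      exact hbound (σ : k →+* ℂ)
  have hfac : (0 : ℝ) < ((Fintype.card N).factorial : ℝ) := by
    exact_mod_cast Nat.factorial_pos _
  calc Real.log Nn ≤ Real.log (((Fintype.card N).factorial * T ^ Fintype.card N) ^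
      Module.finrank ℚ k) := by
        apply Real.log_le_log _ hnorm
        exact_mod_cast Nat.pos_of_ne_zero hNn0
    _ = (Module.finrank ℚ k : ℝ) *
      (Real.log ((Fintype.card N).factorial : ℝ) + Fintype.card N * Real.log T) := by
        rw [Real.log_pow, Real.log_mul hfac.ne' (pow_ne_zero _ hT0.ne'), Real.log_pow]

end H22GW
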