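import Mathlib

/-!
# GW Tel (port of OD Tel to a field of characteristic 0; the poles are rational numbers in `(-1,0)`).
-/

namespace H22GW

open Finset Polynomial

private theorem tel_inf {F : Type*} [Field F] (Q : F[X]) (hQ : Q ≠ 0) (f : ℕ → F) (hf : Function.Injective f)
    (h : ∀ k, Q.eval (f k) = 0) : False := by
  apply hQ
  apply Polynomial.eq_zero_of_infinite_isRoot
  apply Set.Infinite.mono (s := Set.range f)
  · rintro _ ⟨k, rfl⟩
    exact h k
  · exact Set.infinite_range_of_injective hf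

private theorem tel_cop {F : Type*} [Field F] [CharZero F] (P Q N : F[X]) (A : Finset ℚ) (hQ : Q ≠ 0)
    (hPQ : IsCoprime P Q) (hA : ∀ a ∈ A, -1 < a ∧ a < 0) (hdeg : N.natDegree < A.card ∨ N = 0)
    (h : Q.comp (X + 1) * Q * N
      = (∏ a ∈ A, (X - C ((a : ℚ) : F))) * (P.comp (X + 1) * Q - P * Q.comp (X + 1))) : N = 0 := by
  classical
  by_contra hN
  have hdeg' : N.natDegree < A.card := hdeg.resolve_right hN
  have hinj : Function.Injective (fun a : ℚ => (a : F)) := Rat.cast_injective
  obtain ⟨a, haA, haN⟩ : ∃ a ∈ A, N.eval (a : F) ≠ 0 := by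
    by_contra hcon
    push Not at hcon
    have h1 : (A.image (fun a : ℚ => (a : F))).val ≤ N.roots := by
      apply (Multiset.le_iff_subset (A.image (fun a : ℚ => (a : F))).nodup).2
      intro b hb
      rw [mem_roots hN]
      obtain ⟨a, ha, rfl⟩ := Finset.mem_image.mp (Finset.mem_val.mp hb)
      exact hcon a ha
    have h2 := Multiset.card_le_card h1
    have h3 := card_roots' N
    have h4 : Multiset.card (A.image (fun a : ℚ => (a : F))).val = A.card := by
      rw [Finset.card_val, Finset.card_image_of_injective _ hinj]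
    omega
  -- evaluation
  have hev : ∀ b : F, Q.eval (b + 1) * Q.eval b * N.eval b
      = (∏ a ∈ A, (b - ((a : ℚ) : F))) * (P.eval (b + 1) * Q.eval b - P.eval b * Q.eval (b + 1)) := by
    intro b
    have := congrArg (Polynomial.eval b) h
    simpa [eval_comp, eval_prod] using this
  have hcop : ∀ b : F, Q.eval b = 0 → P.eval b ≠ 0 := by
    intro b hb hP
    obtain ⟨u, v, huv⟩ := hPQ
    have := congrArg (Polynomial.eval b) huv
    simp [hb, hP] at this
  have hprod : ∀ b : ℚ, b ∉ A → (∏ a ∈ A, ((b : F) - ((a : ℚ) : F))) ≠ 0 := by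
    intro b hb
    rw [Finset.prod_ne_zero_iff]
    intro a ha h0
    apply hb
    have : b = a := hinj (sub_eq_zero.mp h0)
    rwa [this]
  have hup : ∀ b : ℚ, b ∉ A → Q.eval (b : F) = 0 → Q.eval ((b + 1 : ℚ) : F) = 0 := by
    intro b hb hq
    have h1 := hev b
    rw [hq] at h1
    have h2 : (∏ a ∈ A, ((b : F) - ((a : ℚ) : F))) * (P.eval (b : F) * Q.eval ((b : F) + 1)) = 0 := by
      linear_combination h1
    push_cast
    rcases mul_eq_zero.1 h2 with h3 | h3
    · exact absurd h3 (hprod b hb)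
    · rcases mul_eq_zero.1 h3 with h4 | h4
      · exact absurd h4 (hcop b hq)
      · exact h4
  have hdn : ∀ b : ℚ, b ∉ A → Q.eval ((b + 1 : ℚ) : F) = 0 → Q.eval (b : F) = 0 := by
    intro b hb hq
    push_cast at hq
    have h1 := hev b
    rw [hq] at h1
    have h2 : (∏ a ∈ A, ((b : F) - ((a : ℚ) : F))) * (P.eval ((b : F) + 1) * Q.eval (b : F)) = 0 := by
      linear_combination -h1
    rcases mul_eq_zero.1 h2 with h3 | h3
    · exact absurd h3 (hprod b hb)
    · rcases mul_eq_zero.1 h3 with h4 | h4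
      · exact absurd h4 (hcop _ hq)
      · exact h4
  have hAa := hA a haA
  have h0 : (∏ x ∈ A, ((a : F) - ((x : ℚ) : F))) = 0 := Finset.prod_eq_zero haA (sub_self _)
  have h1 := hev a
  rw [h0, zero_mul] at h1
  have h2 : Q.eval ((a + 1 : ℚ) : F) = 0 ∨ Q.eval (a : F) = 0 := by
    push_cast
    rcases mul_eq_zero.1 h1 with h3 | h3
    · exact mul_eq_zero.1 h3
    · exact absurd h3 haN
  rcases h2 with h3 | h3
  · have h4 : ∀ k : ℕ, Q.eval ((a + 1 + k : ℚ) : F) = 0 := by
      intro k
      induction k with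
      | zero => simpa using h3
      | succ k ih =>
        have h5 := hup (a + 1 + k) (fun hmem => by
          have h6 := hA _ hmem
          have h7 : (0 : ℚ) ≤ k := Nat.cast_nonneg k
          linarith [h6.2, hAa.1]) ih
        have h6 : a + 1 + ((k + 1 : ℕ) : ℚ) = a + 1 + k + 1 := by push_cast; ring
        rw [h6]; exact h5
    refine tel_inf Q hQ (fun k : ℕ => ((a + 1 + (k : ℚ) : ℚ) : F)) ?_ h4
    intro i j hij
    have h7 : a + 1 + (i : ℚ) = a + 1 + (j : ℚ) := hinj hij
    have : (i : ℚ) = j := by linarith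
    exact_mod_cast this
  · have h4 : ∀ k : ℕ, Q.eval ((a - k : ℚ) : F) = 0 := by
      intro k
      induction k with
      | zero => simpa using h3
      | succ k ih =>
        have h6 : a - ((k + 1 : ℕ) : ℚ) + 1 = a - k := by push_cast; ring
        apply hdn
        · intro hmem
          have h7 := (hA _ hmem).1
          have h8 : (0 : ℚ) ≤ k := Nat.cast_nonneg k
          push_cast at h7
          linarith [hAa.2]
        · rw [h6]; exact ih
    refine tel_inf Q hQ (fun k : ℕ => ((a - (k : ℚ) : ℚ) : F)) ?_ h4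
    intro i j hij
    have h7 : a - (i : ℚ) = a - (j : ℚ) := hinj hij
    have : (i : ℚ) = j := by linarith
    exact_mod_cast this

theorem telescope {F : Type*} [Field F] [CharZero F] (P Q N : F[X]) (A : Finset ℚ) (hQ : Q ≠ 0)
    (hA : ∀ a ∈ A, -1 < a ∧ a < 0) (hdeg : N.natDegree < A.card ∨ N = 0)
    (h : Q.comp (X + 1) * Q * N
      = (∏ a ∈ A, (X - C ((a : ℚ) : F))) * (P.comp (X + 1) * Q - P * Q.comp (X + 1))) :
    N = 0 := by
  classical
  obtain ⟨P', hP'⟩ := EuclideanDomain.gcd_dvd_left P Q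
  obtain ⟨Q', hQ'⟩ := EuclideanDomain.gcd_dvd_right P Q
  have hg : EuclideanDomain.gcd P Q ≠ 0 := by
    intro h0
    rw [EuclideanDomain.gcd_eq_zero_iff] at h0
    exact hQ h0.2
  have hQ0 : Q' ≠ 0 := by
    intro h0
    rw [h0, mul_zero] at hQ'
    exact hQ hQ'
  have hcop : IsCoprime P' Q' := by
    refine ⟨EuclideanDomain.gcdA P Q, EuclideanDomain.gcdB P Q, ?_⟩
    apply mul_left_cancel₀ hg
    have h1 := EuclideanDomain.gcd_eq_gcd_ab P Q
    calc EuclideanDomain.gcd P Q * (EuclideanDomain.gcdA P Q * P' + EuclideanDomain.gcdB P Q * Q')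
        = (EuclideanDomain.gcd P Q * P') * EuclideanDomain.gcdA P Q
          + (EuclideanDomain.gcd P Q * Q') * EuclideanDomain.gcdB P Q := by ring
      _ = P * EuclideanDomain.gcdA P Q + Q * EuclideanDomain.gcdB P Q := by rw [← hP', ← hQ']
      _ = EuclideanDomain.gcd P Q * 1 := by rw [mul_one]; exact h1.symm
  set g := EuclideanDomain.gcd P Q with hgdef
  have hgc : g.comp (X + 1) ≠ 0 := by
    intro h0
    rw [comp_eq_zero_iff] at h0
    rcases h0 with h0 | h0
    · exact hg h0
    · have h1 := h0.2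
      have h2 := congrArg (fun q : F[X] => q.coeff 1) h1
      simp [coeff_one] at h2
  refine tel_cop P' Q' N A hQ0 hcop hA hdeg ?_
  have h1 : g.comp (X + 1) * g * (Q'.comp (X + 1) * Q' * N)
      = g.comp (X + 1) * g * ((∏ a ∈ A, (X - C ((a : ℚ) : F))) *
        (P'.comp (X + 1) * Q' - P' * Q'.comp (X + 1))) := by
    rw [hP', hQ'] at h
    simp only [mul_comp] at h
    linear_combination h
  exact mul_left_cancel₀ (mul_ne_zero hgc hg) h1

end H22GW
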