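import Pool.Agent.H22.GW.RsDefs
import Pool.Agent.H22.GW.Tel
import Pool.Agent.H83.FD.Zero

/-!
# GW Ind: the functions `ρ_c = ∑_{0<h<qc} wg_h/(qcX+h)`, `1 ≤ c ≤ w`, are linearly independent modulo the
differences `y(X+1) - y(X)`

Write the combination as `N/D`, `D` the product over the set of all the points `-h/(qc)`, in `(-1,0)`;
`telescope`: `N = 0`.  Evaluate `N` at `-h₀/(q c)`, `c` the largest index with nonzero coefficient and `h₀` the
least index with `W h₀ ≠ 0`: the other terms with this pole have `h (c+1) = h₀ (c'+1)`, `c' < c`, so `h < h₀`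
and `W h = 0`.
-/

namespace H22GW

open Finset Polynomial

/-- the points -/
noncomputable def indPt (q c h : ℕ) : ℚ := -(h : ℚ) / ((q * (c + 1) : ℕ) : ℚ)

open Classical in
/-- the set of the points -/
noncomputable def indA (q w : ℕ) : Finset ℚ :=
  (univ : Finset (Fin w)).biUnion fun c => (Ioo 0 (q * (c.val + 1))).image (indPt q c.val)

/-- the numerator -/
noncomputable def indN {F : Type*} [Field F] (q : ℕ) (W : ℕ → F) (w : ℕ) (β : Fin w → F) : F[X] :=
  ∑ c : Fin w, ∑ h ∈ Ioo 0 (q * (c.val + 1)),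
    C (β c * wg q W h / ((q * (c.val + 1) : ℕ) : F)) *
      ∏ a ∈ (indA q w).erase (indPt q c.val h), (X - C ((a : ℚ) : F))

theorem ind_mem (q w : ℕ) (c : Fin w) (h : ℕ) (hh : h ∈ Ioo 0 (q * (c.val + 1))) :
    indPt q c.val h ∈ indA q w := by
  classical
  unfold indA
  rw [mem_biUnion]
  exact ⟨c, mem_univ c, mem_image_of_mem _ hh⟩

theorem ind_cast_ne (F : Type*) [Field F] [CharZero F] {q : ℕ} (hq : 0 < q) (c : ℕ) :
    ((q * (c + 1) : ℕ) : F) ≠ 0 :=
  Nat.cast_ne_zero.2 (by positivity)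

theorem ind_range {q : ℕ} (hq : 0 < q) (w : ℕ) (a : ℚ) (ha : a ∈ indA q w) : -1 < a ∧ a < 0 := by
  classical
  unfold indA at ha
  rw [mem_biUnion] at ha
  obtain ⟨c, -, hc⟩ := ha
  rw [mem_image] at hc
  obtain ⟨h, hh, rfl⟩ := hc
  rw [mem_Ioo] at hh
  have h1 : (0 : ℚ) < (h : ℚ) := by exact_mod_cast hh.1
  have h2 : (h : ℚ) < ((q * (c.val + 1) : ℕ) : ℚ) := by exact_mod_cast hh.2
  have h3 : (0 : ℚ) < ((q * (c.val + 1) : ℕ) : ℚ) := by positivity
  unfold indPt
  constructor
  · rw [lt_div_iff₀ h3]; linarith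
  · rw [div_lt_iff₀ h3]; linarith

theorem ind_eq {F : Type*} [Field F] [CharZero F] {q : ℕ} (hq : 0 < q) (W : ℕ → F) (w : ℕ)
    (β : Fin w → F) :
    ∑ c : Fin w, algebraMap F[X] (FractionRing F[X]) (C (β c)) *
      (algebraMap F[X] (FractionRing F[X]) (numC q W c) /
        algebraMap F[X] (FractionRing F[X]) (denC F q c)) =
    algebraMap F[X] (FractionRing F[X]) (indN q W w β) /
      algebraMap F[X] (FractionRing F[X]) (∏ a ∈ indA q w, (X - C ((a : ℚ) : F))) := by
  classical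
  have hinj := IsFractionRing.injective F[X] (FractionRing F[X])
  have hne : ∀ P : F[X], P ≠ 0 → algebraMap F[X] (FractionRing F[X]) P ≠ 0 := fun P hP h0 =>
    hP (hinj (h0.trans (map_zero _).symm))
  unfold indN
  rw [map_sum, sum_div]
  refine sum_congr rfl fun c _ => ?_
  rw [map_sum, sum_div]
  have hcn := ind_cast_ne F hq c.val
  have hcnQ := ind_cast_ne ℚ hq c.val
  have hL : ∀ h : ℕ, (C ((q * (c.val + 1) : ℕ) : F) * X + C (h : F) : F[X]) =
      C ((q * (c.val + 1) : ℕ) : F) * (X - C ((indPt q c.val h : ℚ) : F)) := by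
    intro h
    have h1 : (h : F) = -(((q * (c.val + 1) : ℕ) : F) * ((indPt q c.val h : ℚ) : F)) := by
      have h2 : (h : ℚ) = -(((q * (c.val + 1) : ℕ) : ℚ) * indPt q c.val h) := by
        unfold indPt
        rw [mul_div_cancel₀ _ hcnQ, neg_neg]
      have h3 := congrArg (fun z : ℚ => (z : F)) h2
      simpa only [Rat.cast_natCast, Rat.cast_neg, Rat.cast_mul] using h3
    conv_lhs => rw [h1]
    rw [C_neg, C_mul]
    ring
  have hLne : ∀ h : ℕ, (C ((q * (c.val + 1) : ℕ) : F) * X + C (h : F) : F[X]) ≠ 0 := by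
    intro h
    rw [hL]
    exact mul_ne_zero (C_ne_zero.mpr hcn) (X_sub_C_ne_zero _)
  have hden : denC F q c = ∏ h ∈ Ioo 0 (q * (c.val + 1)),
      (C ((q * (c.val + 1) : ℕ) : F) * X + C (h : F)) := rfl
  have hnum : numC q W c = ∑ h ∈ Ioo 0 (q * (c.val + 1)), C (wg q W h) *
      ∏ k ∈ (Ioo 0 (q * (c.val + 1))).erase h,
        (C ((q * (c.val + 1) : ℕ) : F) * X + C (k : F)) := rfl
  rw [hden, hnum, map_sum, sum_div, mul_sum]
  refine sum_congr rfl fun h hh => ?_
  rw [← mul_prod_erase _ _ hh, ← mul_prod_erase _ _ (ind_mem q w c h hh)]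
  have e1 : algebraMap F[X] (FractionRing F[X]) (∏ k ∈ (Ioo 0 (q * (c.val + 1))).erase h,
        (C ((q * (c.val + 1) : ℕ) : F) * X + C (k : F))) ≠ 0 :=
    hne _ (prod_ne_zero_iff.mpr fun k _ => hLne k)
  have e2 : algebraMap F[X] (FractionRing F[X])
      (∏ a ∈ (indA q w).erase (indPt q c.val h), (X - C ((a : ℚ) : F))) ≠ 0 :=
    hne _ (prod_ne_zero_iff.mpr fun k _ => X_sub_C_ne_zero _)
  have e3 := hne _ (hLne h)
  have e4 := hne _ (X_sub_C_ne_zero ((indPt q c.val h : ℚ) : F))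
  have e5 : algebraMap F[X] (FractionRing F[X]) (C ((q * (c.val + 1) : ℕ) : F)) ≠ 0 :=
    hne _ (C_ne_zero.mpr hcn)
  rw [hL h, map_mul, map_mul, map_mul, map_mul, map_mul]
  have e6 : algebraMap F[X] (FractionRing F[X])
      (C (β c * wg q W h / ((q * (c.val + 1) : ℕ) : F)))
      = algebraMap F[X] (FractionRing F[X]) (C (β c)) *
        algebraMap F[X] (FractionRing F[X]) (C (wg q W h)) /
        algebraMap F[X] (FractionRing F[X]) (C ((q * (c.val + 1) : ℕ) : F)) := by
    rw [eq_div_iff e5, ← map_mul, ← C_mul, div_mul_cancel₀ _ hcn, C_mul, map_mul]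
  rw [e6]
  field_simp

theorem ind_deg {F : Type*} [Field F] {q : ℕ} (hq : 1 < q) (W : ℕ → F) (w : ℕ) (β : Fin w → F) :
    (indN q W w β).natDegree < (indA q w).card ∨ indN q W w β = 0 := by
  classical
  rcases Nat.eq_zero_or_pos w with h0 | h0
  · right
    subst h0
    unfold indN
    simp
  · left
    have hpos : 0 < (indA q w).card := by
      rw [card_pos]
      exact ⟨_, ind_mem q w ⟨0, h0⟩ 1 (by rw [mem_Ioo]; simp only [Nat.zero_add, Nat.mul_one]; omega)⟩
    have h1 : (indN q W w β).natDegree ≤ (indA q w).card - 1 := by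
      unfold indN
      refine natDegree_sum_le_of_forall_le _ _ fun c _ => ?_
      refine natDegree_sum_le_of_forall_le _ _ fun h hh => ?_
      refine (natDegree_C_mul_le _ _).trans ?_
      rw [natDegree_prod_of_monic _ _ (fun a _ => monic_X_sub_C _)]
      simp only [natDegree_X_sub_C, sum_const, smul_eq_mul, mul_one]
      rw [card_erase_of_mem (ind_mem q w c h hh)]
    omega

theorem ind_gw {F : Type*} [Field F] [CharZero F] (q : ℕ) (W : ℕ → F)
    (hW : ∃ h, 0 < h ∧ h < q ∧ W h ≠ 0) (w : ℕ) (β : Fin w → F) (y : FractionRing F[X])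
    (hy : Pool.Agent.H83.FD.shK F y - y = ∑ c, algebraMap F[X] (FractionRing F[X]) (C (β c)) *
      (algebraMap F[X] (FractionRing F[X]) (numC q W c) /
        algebraMap F[X] (FractionRing F[X]) (denC F q c))) : β = 0 := by
  classical
  -- the least index of a nonzero weight
  obtain ⟨h₀, ⟨hh₀, hh₀q, hWh₀⟩, hmin⟩ : ∃ h₀, (0 < h₀ ∧ h₀ < q ∧ W h₀ ≠ 0) ∧
      ∀ h, h < h₀ → ¬ (0 < h ∧ h < q ∧ W h ≠ 0) :=
    ⟨Nat.find hW, Nat.find_spec hW, fun h hh => Nat.find_min hW hh⟩
  have hq : 0 < q := by omega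
  have hq1 : 1 < q := by omega
  have hinj := IsFractionRing.injective F[X] (FractionRing F[X])
  have hne : ∀ P : F[X], P ≠ 0 → algebraMap F[X] (FractionRing F[X]) P ≠ 0 := fun P hP h0 =>
    hP (hinj (h0.trans (map_zero _).symm))
  -- the numerator is zero
  have hN : indN q W w β = 0 := by
    rw [ind_eq hq] at hy
    obtain ⟨P, Q, hQ, rfl⟩ := IsFractionRing.div_surjective (A := F[X]) y
    have hQ0 : Q ≠ 0 := nonZeroDivisors.ne_zero hQ
    have hQ1 : Q.comp (X + C 1) ≠ 0 := Pool.Agent.H83.FD.comp_ne_zero' hQ0 1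
    have hD : (∏ a ∈ indA q w, (X - C ((a : ℚ) : F)) : F[X]) ≠ 0 :=
      prod_ne_zero_iff.mpr fun a _ => X_sub_C_ne_zero _
    rw [map_div₀, Pool.Agent.H83.FD.shK_map, Pool.Agent.H83.FD.shK_map,
      div_sub_div _ _ (hne _ hQ1) (hne _ hQ0), div_eq_div_iff (mul_ne_zero (hne _ hQ1) (hne _ hQ0))
        (hne _ hD)] at hy
    apply telescope P Q (indN q W w β) (indA q w) hQ0 (ind_range hq w) (ind_deg hq1 W w β)
    apply hinj
    rw [← C_1]
    simp only [map_mul, map_sub]
    linear_combination -hy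
  by_contra hβ
  -- the largest index
  have hex : ∃ c₀ : Fin w, β c₀ ≠ 0 ∧ ∀ c, c₀ < c → β c = 0 := by
    have hne' : ((univ : Finset (Fin w)).filter fun c => β c ≠ 0).Nonempty := by
      obtain ⟨c, hc⟩ := Function.ne_iff.mp hβ
      exact ⟨c, by simpa using hc⟩
    obtain ⟨c₀, hc₀, hmax⟩ := exists_max_image _ (fun c => c) hne'
    refine ⟨c₀, (mem_filter.mp hc₀).2, fun c hc => ?_⟩
    by_contra h
    exact absurd (hmax c (mem_filter.mpr ⟨mem_univ c, h⟩)) (not_le.mpr hc)
  obtain ⟨c₀, hc₀, hmax⟩ := hex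
  set a₀ : ℚ := indPt q c₀.val h₀ with ha₀
  have h2mem : h₀ ∈ Ioo 0 (q * (c₀.val + 1)) := by
    rw [mem_Ioo]
    exact ⟨hh₀, hh₀q.trans_le (Nat.le_mul_of_pos_right q (Nat.succ_pos _))⟩
  have ha₀mem : a₀ ∈ indA q w := ind_mem q w c₀ h₀ h2mem
  have hev : ∀ a : ℚ, (∏ a' ∈ (indA q w).erase a, (X - C ((a' : ℚ) : F)) : F[X]).eval (a₀ : F) =
      if a = a₀ then ∏ a' ∈ (indA q w).erase a₀, ((a₀ : F) - (a' : F)) else 0 := by
    intro a
    rw [eval_prod]
    split_ifs with h
    · rw [h]; exact prod_congr rfl fun a' _ => by simp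
    · exact prod_eq_zero (mem_erase.mpr ⟨fun h' => h h'.symm, ha₀mem⟩) (by simp)
  have hsum := congrArg (eval (a₀ : F)) hN
  unfold indN at hsum
  rw [eval_finsetSum, eval_zero, sum_eq_single c₀, eval_finsetSum, sum_eq_single h₀] at hsum
  · rw [eval_mul, eval_C, hev, if_pos rfl] at hsum
    have hw2 : wg q W h₀ = W h₀ := by
      unfold wg
      rw [Nat.mod_eq_of_lt hh₀q, if_neg hh₀.ne']
    rw [hw2] at hsum
    rcases mul_eq_zero.mp hsum with h | h
    · rw [div_eq_zero_iff] at h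
      rcases h with h | h
      · rcases mul_eq_zero.mp h with h | h
        · exact hc₀ h
        · exact hWh₀ h
      · exact ind_cast_ne F hq c₀.val h
    · rw [prod_eq_zero_iff] at h
      obtain ⟨a', ha', h'⟩ := h
      exact (mem_erase.mp ha').1 (Rat.cast_injective (sub_eq_zero.mp h')).symm
  · intro h hh hne2
    rw [eval_mul, hev, if_neg, mul_zero]
    intro he
    apply hne2
    rw [ha₀] at he
    unfold indPt at he
    have h3 := ind_cast_ne ℚ hq c₀.val
    rw [div_left_inj' h3, neg_inj] at he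
    exact_mod_cast he
  · intro h
    exact absurd h2mem h
  · intro c _ hc
    rw [eval_finsetSum]
    refine sum_eq_zero fun h hh => ?_
    rw [eval_mul, eval_C, hev]
    rcases lt_or_gt_of_ne hc with hlt | hgt
    · split_ifs with he
      · rw [ha₀] at he
        unfold indPt at he
        have h3 := ind_cast_ne ℚ hq c₀.val
        have h4 := ind_cast_ne ℚ hq c.val
        rw [div_eq_div_iff h4 h3, neg_mul, neg_mul, neg_inj] at he
        have h5 : h * (q * (c₀.val + 1)) = h₀ * (q * (c.val + 1)) := by exact_mod_cast he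
        have h6 : c.val < c₀.val := hlt
        have h7 : h < h₀ := by
          by_contra h7
          push Not at h7
          have h8 : h₀ * (q * (c₀.val + 1)) ≤ h * (q * (c₀.val + 1)) := Nat.mul_le_mul_right _ h7
          have h9 : h₀ * (q * (c.val + 1)) < h₀ * (q * (c₀.val + 1)) :=
            Nat.mul_lt_mul_of_pos_left (Nat.mul_lt_mul_of_pos_left (by omega) hq) hh₀
          omega
        rw [mem_Ioo] at hh
        have h8 : wg q W h = 0 := by
          unfold wg
          rw [Nat.mod_eq_of_lt (h7.trans hh₀q), if_neg hh.1.ne']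
          by_contra h9
          exact hmin h h7 ⟨hh.1, h7.trans hh₀q, h9⟩
        rw [h8, mul_zero, zero_div, zero_mul]
      · rw [mul_zero]
    · rw [hmax c hgt, zero_mul, zero_div, zero_mul]
  · intro h
    exact absurd (mem_univ c₀) h

end H22GW
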