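import Pool.Agent.H22.GW.Defs

/-!
# GW LamShift (port of OD LamShift from step (3)): iterate `LamOK`, then `z = cX`, `b = ca`, `c^(p-1) = 1`.
-/

namespace H22GW

open Finset Polynomial

section LamShift

variable {Ω : Type*} [Field Ω] {K : Type*} [Field K] [Algebra Ω K]

/-- `Lam(z) / (z^(p-1) - 1)` -/
noncomputable def lamK (p : ℕ) (Lam : Polynomial Ω) (z : K) : K :=
  aeval z Lam / (z ^ (p - 1) - 1)

theorem aeval_dq (q : ℕ) (z : K) :
    aeval z (dq Ω q) = ∏ h ∈ Ioo 0 q, ((q : K) * z + (h : K)) := by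
  unfold dq
  rw [map_prod]
  refine Finset.prod_congr rfl fun h _ => ?_
  rw [map_add, map_mul, aeval_C, aeval_C, aeval_X, map_natCast, map_natCast]

theorem aeval_nq (q : ℕ) (W : ℕ → Ω) (z : K) :
    aeval z (nq q W) = ∑ h ∈ Ioo 0 q, algebraMap Ω K (W h) *
      ∏ k ∈ (Ioo 0 q).erase h, ((q : K) * z + (k : K)) := by
  unfold nq
  rw [map_sum]
  refine Finset.sum_congr rfl fun h _ => ?_
  rw [map_mul, aeval_C, map_prod]
  congr 1
  refine Finset.prod_congr rfl fun h _ => ?_
  rw [map_add, map_mul, aeval_C, aeval_C, aeval_X, map_natCast, map_natCast]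

theorem lamK_succ {p q : ℕ} {W : ℕ → Ω} {Lam : Polynomial Ω} (hL : LamOK p q W Lam) (z : K)
    (h1 : z ^ (p - 1) - 1 ≠ 0) (h2 : (z + 1) ^ (p - 1) - 1 ≠ 0)
    (h3 : ∀ h : ℕ, (q : K) * z + h ≠ 0) :
    lamK p Lam (z + 1) - lamK p Lam z
      = ∑ h ∈ Ioo 0 q, algebraMap Ω K (W h) / ((q : K) * z + h) := by
  have hd : (∏ h ∈ Ioo 0 q, ((q : K) * z + (h : K))) ≠ 0 := prod_ne_zero_iff.2 fun h _ => h3 h
  have hs : (∏ h ∈ Ioo 0 q, ((q : K) * z + (h : K))) *
      (∑ h ∈ Ioo 0 q, algebraMap Ω K (W h) / ((q : K) * z + h)) = aeval z (nq q W) := by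
    rw [aeval_nq, Finset.mul_sum]
    refine Finset.sum_congr rfl fun h hh => ?_
    rw [← Finset.mul_prod_erase _ _ hh, mul_comm ((q : K) * z + (h : K)), mul_assoc,
      mul_div_cancel₀ _ (h3 h), mul_comm]
  have h4 := congrArg (aeval z) hL.2
  simp only [map_mul, map_sub, map_pow, map_one, map_add, aeval_comp, aeval_X] at h4
  rw [aeval_dq, ← hs] at h4
  have h5 : (∏ h ∈ Ioo 0 q, ((q : K) * z + (h : K))) *
      (lamK p Lam (z + 1) - lamK p Lam z)
      = (∏ h ∈ Ioo 0 q, ((q : K) * z + (h : K))) *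
      (∑ h ∈ Ioo 0 q, algebraMap Ω K (W h) / ((q : K) * z + h)) := by
    unfold lamK
    rw [div_sub_div _ _ h2 h1, mul_div_assoc', div_eq_iff (mul_ne_zero h2 h1)]
    linear_combination h4
  exact mul_left_cancel₀ hd h5

theorem lamK_add {p q : ℕ} {W : ℕ → Ω} {Lam : Polynomial Ω} (hL : LamOK p q W Lam)
    (z : K) (h1 : ∀ n : ℕ, (z + n) ^ (p - 1) - 1 ≠ 0) (h3 : ∀ h : ℕ, (q : K) * z + h ≠ 0) (b : ℕ) :
    lamK p Lam (z + b) - lamK p Lam z
      = ∑ h ∈ range (q * b), algebraMap Ω K (wg q W h) / ((q : K) * z + h) := by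
  induction b with
  | zero => simp
  | succ b ih =>
    have h4 := lamK_succ hL (z + b) (h1 b) (by have := h1 (b + 1); push_cast at this
                                               rwa [← add_assoc] at this)
      (fun h => by
        have := h3 (q * b + h)
        push_cast at this
        intro h0
        apply this
        linear_combination h0)
    have h2 : lamK p Lam (z + ((b + 1 : ℕ) : K)) - lamK p Lam z
        = (lamK p Lam (z + b + 1) - lamK p Lam (z + b)) + (lamK p Lam (z + b) - lamK p Lam z) := by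
      push_cast
      rw [← add_assoc]
      ring
    rw [h2, ih, h4, show q * (b + 1) = q * b + q by ring, Finset.sum_range_add, add_comm]
    congr 1
    have hsub : Ioo 0 q ⊆ range q := by
      intro h hh
      rw [mem_Ioo] at hh
      exact mem_range.2 hh.2
    rw [← Finset.sum_subset hsub]
    · refine Finset.sum_congr rfl fun h hh => ?_
      rw [mem_Ioo] at hh
      have hw : wg q W (q * b + h) = W h := by
        unfold wg
        rw [Nat.mul_add_mod, Nat.mod_eq_of_lt hh.2, if_neg hh.1.ne']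
      rw [hw]
      push_cast
      congr 1
      ring
    · intro h h5 h6
      rw [mem_Ioo, mem_range] at *
      have h0 : h = 0 := by omega
      subst h0
      have hw : wg q W (q * b + 0) = 0 := by
        unfold wg
        rw [add_zero, Nat.mul_mod_right, if_pos rfl]
      rw [hw]
      simp

theorem aeval_bn (N : ℕ) (z : K) : aeval z (bn Ω N)
    = algebraMap Ω K ((N.factorial : Ω)⁻¹) * ∏ i ∈ range N, (z - (i : K)) := by
  unfold bn
  rw [map_mul, aeval_C, map_prod]
  congr 1
  refine Finset.prod_congr rfl fun i _ => ?_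
  rw [map_sub, aeval_X, aeval_C, map_natCast]

theorem aeval_RR (q : ℕ) (W : ℕ → Ω) (m c a : ℕ) (t : K) : aeval t (RR q W m c a)
    = algebraMap Ω K (((q * c * m).factorial : Ω)⁻¹) * ∑ h ∈ Ioo 0 (q * c * a),
      algebraMap Ω K (wg q W h) * ∏ k ∈ (range (q * c * m)).erase (q * c * a - h),
        (((q * c : ℕ) : K) * (t + (a : K)) - (k : K)) := by
  unfold RR
  rw [map_mul, aeval_C, map_sum]
  congr 1
  refine Finset.sum_congr rfl fun h _ => ?_
  rw [map_mul, aeval_C, map_prod]
  congr 1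
  refine Finset.prod_congr rfl fun i _ => ?_
  rw [map_sub, map_mul, map_add, aeval_X, aeval_C, aeval_C, aeval_C, map_natCast, map_natCast,
    map_natCast]

theorem bn_RR (q : ℕ) (W : ℕ → Ω) (m c a : ℕ) (ha : a ≤ m) (t : K)
    (ht : ∀ h : ℕ, (q : K) * (c * t) + h ≠ 0) :
    aeval (((q * c : ℕ) : K) * (t + a)) (bn Ω (q * c * m)) *
      (∑ h ∈ range (q * (c * a)), algebraMap Ω K (wg q W h) / ((q : K) * ((c : K) * t) + h))
      = aeval t (RR q W m c a) := by
  rw [aeval_bn, aeval_RR, mul_assoc]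
  congr 1
  rw [Finset.mul_sum]
  have hr : range (q * (c * a)) = (range (q * c * a)) := by rw [mul_assoc]
  rw [hr]
  have hsub : Ioo 0 (q * c * a) ⊆ range (q * c * a) := by
    intro h hh
    rw [mem_Ioo] at hh
    exact mem_range.2 hh.2
  rw [← Finset.sum_subset hsub]
  · refine Finset.sum_congr rfl fun h hh => ?_
    rw [mem_Ioo] at hh
    have hle : q * c * a ≤ q * c * m := Nat.mul_le_mul_left _ ha
    have hmem : q * c * a - h ∈ range (q * c * m) := mem_range.2 (by omega)
    rw [← Finset.mul_prod_erase _ _ hmem]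
    have hfac : ((q * c : ℕ) : K) * (t + (a : K)) - ((q * c * a - h : ℕ) : K)
        = q * (c * t) + h := by
      rw [Nat.cast_sub hh.2.le]
      push_cast
      ring
    rw [hfac, mul_comm ((q : K) * ((c : K) * t) + h), mul_assoc, mul_div_cancel₀ _ (ht h),
      mul_comm]
  · intro h h1 h2
    rw [mem_Ioo, mem_range] at *
    have h0 : h = 0 := by omega
    subst h0
    have w0 : wg q W 0 = 0 := by simp [wg]
    rw [w0]
    simp

theorem cast_pow_sub_one {p : ℕ} [Fact p.Prime] [CharP Ω p] {c : ℕ} (hc : (c : Ω) ≠ 0) :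
    (c : Ω) ^ (p - 1) = 1 := by
  have hc0 : (c : ZMod p) ≠ 0 := by
    intro h
    apply hc
    rw [ZMod.natCast_eq_zero_iff] at h
    exact (CharP.cast_eq_zero_iff Ω p c).2 h
  have h := ZMod.pow_card_sub_one_eq_one hc0
  have h' := congrArg (ZMod.castHom (dvd_refl p) Ω) h
  rwa [map_pow, map_natCast, map_one] at h'

end LamShift

theorem lam_shift {Ω : Type*} [Field Ω] (p : ℕ) [Fact p.Prime] [CharP Ω p] (q : ℕ) (hq : 1 ≤ q)
    (W : ℕ → Ω) (Lam : Polynomial Ω) (hL : LamOK p q W Lam) (m c a : ℕ) (hc : 1 ≤ c) (ha : a < m)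
    (hm : q * c * m < p) :
    (bn Ω (q * c * m)).comp (C ((q * c : ℕ) : Ω) * (X + C (a : Ω))) *
      ((X ^ (p - 1) - 1) * Lam.comp (C (c : Ω) * (X + C (a : Ω)))
        - ((X + C (a : Ω)) ^ (p - 1) - 1) * Lam.comp (C (c : Ω) * X))
    = (X ^ (p - 1) - 1) * ((X + C (a : Ω)) ^ (p - 1) - 1) * RR q W m c a := by
  have hpp : p.Prime := Fact.out
  have hp2 := hpp.two_le
  have hqc : q * c < p := by
    have h1 : q * c * 1 ≤ q * c * m := Nat.mul_le_mul_left _ (by omega)
    omega
  have hqc1 : 1 * c ≤ q * c := Nat.mul_le_mul_right c hq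
  have hqc2 : q * 1 ≤ q * c := Nat.mul_le_mul_left q hc
  have hne : ∀ n : ℕ, 1 ≤ n → n < p → (n : Ω) ≠ 0 := by
    intro n hn1 hn2
    rw [Ne, CharP.cast_eq_zero_iff Ω p n]
    intro h
    have := Nat.le_of_dvd (by omega) h
    omega
  have hc0 : (c : Ω) ≠ 0 := hne c hc (by omega)
  have hq0 : (q : Ω) ≠ 0 := hne q hq (by omega)
  have hι : Function.Injective (algebraMap (Polynomial Ω) (FractionRing (Polynomial Ω))) :=
    IsFractionRing.injective _ _
  have hιa : ∀ f : (Polynomial Ω), algebraMap (Polynomial Ω) (FractionRing (Polynomial Ω)) f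
      = aeval (algebraMap (Polynomial Ω) (FractionRing (Polynomial Ω)) X) f := by
    intro f
    rw [aeval_algebraMap_apply, aeval_X_left_apply]
  generalize ht : algebraMap (Polynomial Ω) (FractionRing (Polynomial Ω)) X = t at hιa
  have hinj : ∀ f : (Polynomial Ω), f ≠ 0 → aeval t f ≠ 0 := by
    intro f hf h
    rw [← hιa, ← map_zero (algebraMap (Polynomial Ω) (FractionRing (Polynomial Ω)))] at h
    exact hf (hι h)
  have hz1 : ∀ n : ℕ, ((c : FractionRing (Polynomial Ω)) * t + n) ^ (p - 1) - 1 ≠ 0 := by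
    intro n
    have h1 : ((C (c : Ω) * X + C (n : Ω)) ^ (p - 1) - 1  : Polynomial Ω) ≠ 0 := by
      intro h
      have h2 : ((C (c : Ω) * X + C (n : Ω)) ^ (p - 1)  : Polynomial Ω).natDegree = p - 1 := by
        rw [natDegree_pow, natDegree_linear hc0, mul_one]
      rw [sub_eq_zero.1 h, natDegree_one] at h2
      omega
    have h3 := hinj _ h1
    simpa only [map_sub, map_pow, map_add, map_mul, map_one, aeval_X, aeval_C, map_natCast]
      using h3
  have hz3 : ∀ h : ℕ, (q : FractionRing (Polynomial Ω)) * (c * t) + h ≠ 0 := by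
    intro n
    have h1 : (C (q : Ω) * (C (c : Ω) * X) + C (n : Ω)  : Polynomial Ω) ≠ 0 := by
      intro h
      have h2 := congrArg (fun f => coeff f 1) h
      simp only [coeff_add, coeff_C_mul, coeff_X_one, coeff_C_of_ne_zero (by norm_num : (1 : ℕ) ≠ 0),
        mul_one, add_zero, coeff_zero] at h2
      exact mul_ne_zero hq0 hc0 h2
    have h3 := hinj _ h1
    simpa only [map_add, map_mul, aeval_X, aeval_C, map_natCast] using h3
  have hadd := lamK_add hL ((c : FractionRing (Polynomial Ω)) * t) hz1 hz3 (c * a)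
  have hbn := bn_RR q W m c a ha.le t hz3
  rw [← hadd] at hbn
  have hzz : (c : FractionRing (Polynomial Ω)) * t + ((c * a : ℕ) : FractionRing (Polynomial Ω))
      = (c : FractionRing (Polynomial Ω)) * (t + a) := by
    rw [Nat.cast_mul]
    ring
  have hz1a := hz1 (c * a)
  have hz10 := hz1 0
  rw [hzz] at hbn hz1a
  rw [Nat.cast_zero, add_zero] at hz10
  have hcpow : (c : FractionRing (Polynomial Ω)) ^ (p - 1) = 1 := by
    have h' := congrArg (algebraMap Ω (FractionRing (Polynomial Ω))) (cast_pow_sub_one (p := p) hc0)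
    rwa [map_pow, map_natCast, map_one] at h'
  rw [mul_pow, hcpow, one_mul] at hz1a hz10
  unfold lamK at hbn
  rw [mul_pow, mul_pow, hcpow, one_mul, one_mul, div_sub_div _ _ hz1a hz10] at hbn
  apply hι
  rw [hιa (_ * RR _ _ _ _ _), hιa]
  simp only [map_mul, map_sub, map_add, map_pow, map_one, aeval_comp, aeval_X, map_natCast]
  rw [← hbn]
  field_simp

end H22GW
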