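import Pool.Agent.H22.GW.RsDefs

/-!
# GW RRs.
PROOF. `(qcX + h) * ∏_{k ≠ qca-h} (qc(X+a) - k) = ∏_{k<qcm} (qc(X+a) - k)` for `0 < h < qca`, `a < m`.
-/

namespace H22GW

open Finset Polynomial

theorem RR_eq {F : Type*} [Field F] [CharZero F] (q : ℕ) (hq : 1 ≤ q) (W : ℕ → F) (m c a : ℕ)
    (hc : 1 ≤ c) (ha : a < m) :
    ((RR q W m c a : F[X]) : PowerSeries F) =
      (((bn F (q * c * m)).comp (C ((q * c : ℕ) : F) * (X + C (a : F))) : F[X]) : PowerSeries F)
        * rs q W c a := by
  have hcomp : (bn F (q * c * m)).comp (C ((q * c : ℕ) : F) * (X + C (a : F))) =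
      C (((q * c * m).factorial : F)⁻¹) *
        ∏ k ∈ range (q * c * m), (C ((q * c : ℕ) : F) * (X + C (a : F)) - C (k : F)) := by
    unfold bn
    rw [mul_comp, C_comp, Polynomial.prod_comp]
    congr 1
    refine Finset.prod_congr rfl fun k _ => ?_
    rw [sub_comp, X_comp, C_comp]
  rw [hcomp]
  unfold RR rs
  rw [Polynomial.coe_mul, Polynomial.coe_mul, Polynomial.coe_C, mul_assoc (PowerSeries.C _)]
  congr 1
  rw [Finset.mul_sum, ← Polynomial.coeToPowerSeries.ringHom_apply, map_sum]
  refine Finset.sum_congr rfl fun h hh => ?_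
  rw [Finset.mem_Ioo] at hh
  have hlt : q * c * a < q * c * m := by
    apply Nat.mul_lt_mul_of_pos_left ha
    positivity
  have hk : q * c * a - h ∈ range (q * c * m) := by
    rw [Finset.mem_range]
    omega
  rw [← Finset.mul_prod_erase (range (q * c * m)) _ hk]
  have hfac : (C ((q * c : ℕ) : F) * (X + C (a : F)) - C (((q * c * a - h : ℕ)) : F) : F[X]) =
      C (h : F) + C ((q * c : ℕ) : F) * X := by
    have h1 : (((q * c * a - h : ℕ)) : F) = ((q * c : ℕ) : F) * a - h := by
      rw [Nat.cast_sub hh.2.le]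
      push_cast
      ring
    rw [h1, C_sub, C_mul]
    ring
  rw [hfac]
  rw [Polynomial.coeToPowerSeries.ringHom_apply, Polynomial.coe_mul, Polynomial.coe_C,
    Polynomial.coe_mul, Polynomial.coe_add, Polynomial.coe_mul, Polynomial.coe_C,
    Polynomial.coe_C, Polynomial.coe_X]
  have hne : PowerSeries.constantCoeff (PowerSeries.C (h : F) +
      PowerSeries.C ((q * c : ℕ) : F) * PowerSeries.X) ≠ 0 := by
    simp only [map_add, PowerSeries.constantCoeff_C, map_mul, PowerSeries.constantCoeff_X,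
      mul_zero, add_zero]
    exact_mod_cast hh.1.ne'
  have hinv := PowerSeries.mul_inv_cancel _ hne
  linear_combination (-(PowerSeries.C (wg q W h)) *
    ((∏ k ∈ (range (q * c * m)).erase (q * c * a - h),
      (C ((q * c : ℕ) : F) * (X + C (a : F)) - C (k : F)) : F[X]) : PowerSeries F)) * hinv

end H22GW
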