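import Pool.Agent.H22.GW.Defs

/-!
# GW RsDefs: definitions for the zero estimate (`rs`, `denC`, `numC`).
-/

namespace H22GW

open Finset Polynomial

variable {F : Type*} [Field F]

/-- `R_{ca}(cy)` -/
noncomputable def rs (q : ℕ) (W : ℕ → F) (c a : ℕ) : PowerSeries F :=
  ∑ h ∈ Ioo 0 (q * c * a), PowerSeries.C (wg q W h) *
    (PowerSeries.C (h : F) + PowerSeries.C ((q * c : ℕ) : F) * PowerSeries.X)⁻¹

/-- the common denominator of `ρ_(c+1)(X) = ∑_{0<h<q(c+1)} w_h / (q(c+1)X + h)` -/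
noncomputable def denC (F : Type*) [Field F] (q c : ℕ) : F[X] :=
  ∏ h ∈ Ioo 0 (q * (c + 1)), (C ((q * (c + 1) : ℕ) : F) * X + C (h : F))

/-- the numerator of `ρ_(c+1)` over `denC c` -/
noncomputable def numC (q : ℕ) (W : ℕ → F) (c : ℕ) : F[X] :=
  ∑ h ∈ Ioo 0 (q * (c + 1)), C (wg q W h) *
    ∏ k ∈ (Ioo 0 (q * (c + 1))).erase h, (C ((q * (c + 1) : ℕ) : F) * X + C (k : F))

end H22GW
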